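import Mathlib

section

/-!
MP_0d8f69_co: convex polygons almost all of whose vertices lie on a circle. Definitions.

`Qn X = 4 F(X)` counts the pairs of ordered pairs at the same distance, `Rn X D = 2 r(D)`.
-/

set_option autoImplicit false

namespace Pool.Agent.Lib.MP_0d8f69_co

/-- the vertices of the regular `n`-gon: the `n`-th roots of unity -/
noncomputable def mu (n : ℕ) : Finset ℂ :=
  (Finset.univ : Finset (Fin n)).image
    (fun k : Fin n => Complex.exp (2 * (Real.pi : ℂ) * Complex.I * ((k : ℕ) : ℂ) / (n : ℂ)))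

/-- `4 F(X)` -/
noncomputable def Qn (X : Finset ℂ) : ℕ :=
  ((X.offDiag ×ˢ X.offDiag).filter
    (fun pq : (ℂ × ℂ) × (ℂ × ℂ) => dist pq.1.1 pq.1.2 = dist pq.2.1 pq.2.2)).card

/-- number of ordered pairs of distinct points of `X` at distance `D` -/
noncomputable def Rn (X : Finset ℂ) (D : ℝ) : ℕ :=
  (X.offDiag.filter (fun p : ℂ × ℂ => dist p.1 p.2 = D)).card

/-- number of pairs of `B × A` at distance `D` -/
noncomputable def sn (B A : Finset ℂ) (D : ℝ) : ℕ :=
  ((B ×ˢ A).filter (fun p : ℂ × ℂ => dist p.1 p.2 = D)).card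

/-- convex position -/
def Cvx (S : Finset ℂ) : Prop := ∀ x ∈ S, x ∉ convexHull ℝ (↑(S.erase x) : Set ℂ)

/-- number of representations of the quotient `g` -/
noncomputable def wn (A : Finset ℂ) (g : ℂ) : ℕ := (A.filter (fun a => g * a ∈ A)).card

/-- the quotients of `A` -/
noncomputable def qs (A : Finset ℂ) : Finset ℂ := (A ×ˢ A).image (fun p : ℂ × ℂ => p.1 / p.2)

/-- multiplicative energy -/
noncomputable def En (A : Finset ℂ) : ℕ := ∑ g ∈ qs A, wn A g ^ 2

/-- points of the unit circle -/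
def Uc (A : Finset ℂ) : Prop := ∀ a ∈ A, ‖a‖ = 1

end Pool.Agent.Lib.MP_0d8f69_co
end

section

set_option autoImplicit false

namespace Pool.Agent.Lib.MP_0d8f69_co

theorem Qn_eq_sum_pairs (X : Finset ℂ) :
    Qn X = ∑ p ∈ X.offDiag, Rn X (dist p.1 p.2) := by
  unfold Qn Rn
  rw [Finset.card_filter, Finset.sum_product]
  refine Finset.sum_congr rfl fun p _ => ?_
  rw [Finset.card_filter]
  refine Finset.sum_congr rfl fun q _ => ?_
  by_cases h : dist p.1 p.2 = dist q.1 q.2
  · rw [if_pos h, if_pos h.symm]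
  · rw [if_neg h, if_neg fun h' => h h'.symm]

/-- sum over pairs by the distance -/
theorem sum_offDiag_dist (X : Finset ℂ) (Δ : Finset ℝ) (hΔ : ∀ p ∈ X.offDiag, dist p.1 p.2 ∈ Δ) (f : ℝ → ℕ) :
    ∑ p ∈ X.offDiag, f (dist p.1 p.2) = ∑ D ∈ Δ, Rn X D * f D := by
  rw [← Finset.sum_fiberwise_of_maps_to (g := fun p : ℂ × ℂ => dist p.1 p.2) hΔ]
  refine Finset.sum_congr rfl fun D _ => ?_
  unfold Rn
  rw [Finset.card_eq_sum_ones, Finset.sum_mul]
  refine Finset.sum_congr rfl fun p hp => ?_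
  rw [(Finset.mem_filter.1 hp).2, one_mul]

theorem sum_prod_dist (B A : Finset ℂ) (Δ : Finset ℝ) (hΔ : ∀ p ∈ B ×ˢ A, dist p.1 p.2 ∈ Δ) (f : ℝ → ℕ) :
    ∑ p ∈ B ×ˢ A, f (dist p.1 p.2) = ∑ D ∈ Δ, sn B A D * f D := by
  rw [← Finset.sum_fiberwise_of_maps_to (g := fun p : ℂ × ℂ => dist p.1 p.2) hΔ]
  refine Finset.sum_congr rfl fun D _ => ?_
  unfold sn
  rw [Finset.card_eq_sum_ones, Finset.sum_mul]
  refine Finset.sum_congr rfl fun p hp => ?_
  rw [(Finset.mem_filter.1 hp).2, one_mul]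

theorem Qn_eq (X : Finset ℂ) (Δ : Finset ℝ) (hΔ : ∀ p ∈ X.offDiag, dist p.1 p.2 ∈ Δ) :
    Qn X = ∑ D ∈ Δ, Rn X D ^ 2 := by
  rw [Qn_eq_sum_pairs, sum_offDiag_dist X Δ hΔ (Rn X)]
  exact Finset.sum_congr rfl fun D _ => (sq _).symm

theorem Rn_sum (X : Finset ℂ) (Δ : Finset ℝ) (hΔ : ∀ p ∈ X.offDiag, dist p.1 p.2 ∈ Δ) :
    ∑ D ∈ Δ, Rn X D = X.offDiag.card := by
  have h := sum_offDiag_dist X Δ hΔ (fun _ => 1)
  simp only [mul_one, Finset.sum_const, smul_eq_mul] at h
  exact h.symm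

theorem sn_sum (B A : Finset ℂ) (Δ : Finset ℝ) (hΔ : ∀ p ∈ B ×ˢ A, dist p.1 p.2 ∈ Δ) :
    ∑ D ∈ Δ, sn B A D = B.card * A.card := by
  have h := sum_prod_dist B A Δ hΔ (fun _ => 1)
  simp only [mul_one, Finset.sum_const, smul_eq_mul] at h
  rw [← h, Finset.card_product]

theorem Rn_union {A B : Finset ℂ} (h : Disjoint A B) (D : ℝ) :
    Rn (A ∪ B) D = Rn A D + 2 * sn B A D + Rn B D := by
  have hsn : sn B A D = ((A ×ˢ B).filter (fun p : ℂ × ℂ => dist p.1 p.2 = D)).card := by
    unfold sn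
    refine Finset.card_bij (fun p _ => (p.2, p.1)) ?_ ?_ ?_
    · intro p hp
      simp only [Finset.mem_filter, Finset.mem_product] at hp ⊢
      exact ⟨⟨hp.1.2, hp.1.1⟩, by rw [dist_comm]; exact hp.2⟩
    · intro p _ q _ h
      simp only [Prod.mk.injEq] at h
      exact Prod.ext h.2 h.1
    · intro p hp
      refine ⟨(p.2, p.1), ?_, rfl⟩
      simp only [Finset.mem_filter, Finset.mem_product] at hp ⊢
      exact ⟨⟨hp.1.2, hp.1.1⟩, by rw [dist_comm]; exact hp.2⟩
  have h2 : (A ∪ B).offDiag.filter (fun p : ℂ × ℂ => dist p.1 p.2 = D) =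
      (A.offDiag.filter (fun p : ℂ × ℂ => dist p.1 p.2 = D) ∪ B.offDiag.filter (fun p : ℂ × ℂ => dist p.1 p.2 = D)) ∪
      ((A ×ˢ B).filter (fun p : ℂ × ℂ => dist p.1 p.2 = D) ∪ (B ×ˢ A).filter (fun p : ℂ × ℂ => dist p.1 p.2 = D)) := by
    ext ⟨x, y⟩
    simp only [Finset.mem_filter, Finset.mem_offDiag, Finset.mem_union, Finset.mem_product]
    have hd : ∀ z, z ∈ A → z ∈ B → False := fun z h1 h2 => (Finset.disjoint_left.1 h h1 h2)
    constructor
    · rintro ⟨⟨hx | hx, hy | hy, hne⟩, hD⟩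
      · exact Or.inl (Or.inl ⟨⟨hx, hy, hne⟩, hD⟩)
      · exact Or.inr (Or.inl ⟨⟨hx, hy⟩, hD⟩)
      · exact Or.inr (Or.inr ⟨⟨hx, hy⟩, hD⟩)
      · exact Or.inl (Or.inr ⟨⟨hx, hy, hne⟩, hD⟩)
    · rintro ((⟨⟨hx, hy, hne⟩, hD⟩ | ⟨⟨hx, hy, hne⟩, hD⟩) | (⟨⟨hx, hy⟩, hD⟩ | ⟨⟨hx, hy⟩, hD⟩))
      · exact ⟨⟨Or.inl hx, Or.inl hy, hne⟩, hD⟩
      · exact ⟨⟨Or.inr hx, Or.inr hy, hne⟩, hD⟩
      · exact ⟨⟨Or.inl hx, Or.inr hy, fun e => hd y (e ▸ hx) hy⟩, hD⟩
      · exact ⟨⟨Or.inr hx, Or.inl hy, fun e => hd y hy (e ▸ hx)⟩, hD⟩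
  unfold Rn
  rw [h2, Finset.card_union_of_disjoint, Finset.card_union_of_disjoint, Finset.card_union_of_disjoint, ← hsn]
  · unfold sn; ring
  · rw [Finset.disjoint_left]
    rintro ⟨x, y⟩ h1 h2
    simp only [Finset.mem_filter, Finset.mem_product] at h1 h2
    exact Finset.disjoint_left.1 h h1.1.1 h2.1.1
  · rw [Finset.disjoint_left]
    rintro ⟨x, y⟩ h1 h2
    simp only [Finset.mem_filter, Finset.mem_offDiag] at h1 h2
    exact Finset.disjoint_left.1 h h1.1.1 h2.1.1
  · rw [Finset.disjoint_left]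
    rintro ⟨x, y⟩ h1 h2
    simp only [Finset.mem_filter, Finset.mem_offDiag, Finset.mem_union, Finset.mem_product] at h1 h2
    rcases h1 with ⟨h1, _⟩ | ⟨h1, _⟩ <;> rcases h2 with ⟨h2, _⟩ | ⟨h2, _⟩
    · exact Finset.disjoint_left.1 h h1.2.1 h2.2
    · exact Finset.disjoint_left.1 h h1.1 h2.1
    · exact Finset.disjoint_left.1 h h2.1 h1.1
    · exact Finset.disjoint_left.1 h h2.2 h1.2.1

end Pool.Agent.Lib.MP_0d8f69_co
end

section

set_option autoImplicit false

namespace Pool.Agent.Lib.MP_0d8f69_co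

theorem mu_eq_nthRoots {n : ℕ} (hn : 0 < n) : mu n = Polynomial.nthRootsFinset n (1 : ℂ) := by
  have : NeZero n := ⟨hn.ne'⟩
  ext z
  rw [Polynomial.mem_nthRootsFinset hn]
  unfold mu
  rw [Finset.mem_image]
  constructor
  · rintro ⟨k, _, rfl⟩
    rw [← Complex.exp_nat_mul, Complex.exp_eq_one_iff]
    refine ⟨(k : ℕ), ?_⟩
    have hn0 : (n : ℂ) ≠ 0 := mod_cast hn.ne'
    push_cast
    field_simp
  · intro hz
    have hz0 : z ≠ 0 := by
      rintro rfl
      rw [zero_pow hn.ne'] at hz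
      exact zero_ne_one hz
    have h1 : (Units.mk0 z hz0) ∈ rootsOfUnity n ℂ := by
      rw [mem_rootsOfUnity, Units.ext_iff]
      simpa using hz
    obtain ⟨i, hi, h2⟩ := (Complex.mem_rootsOfUnity n _).1 h1
    refine ⟨⟨i, hi⟩, Finset.mem_univ _, ?_⟩
    rw [Units.val_mk0] at h2
    rw [← h2]
    congr 1
    simp only
    ring

theorem mem_mu {n : ℕ} (hn : 0 < n) {z : ℂ} : z ∈ mu n ↔ z ^ n = 1 := by
  rw [mu_eq_nthRoots hn, Polynomial.mem_nthRootsFinset hn]

theorem card_mu {n : ℕ} (hn : 0 < n) : (mu n).card = n := by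
  rw [mu_eq_nthRoots hn]
  exact (Complex.isPrimitiveRoot_exp n hn.ne').card_nthRootsFinset

theorem norm_mu {n : ℕ} (hn : 0 < n) {z : ℂ} (hz : z ∈ mu n) : ‖z‖ = 1 := by
  rw [mem_mu hn] at hz
  exact Complex.norm_eq_one_of_pow_eq_one hz hn.ne'

theorem mul_mem_mu {n : ℕ} (hn : 0 < n) {z w : ℂ} (hz : z ∈ mu n) (hw : w ∈ mu n) : z * w ∈ mu n := by
  rw [mem_mu hn] at *
  rw [mul_pow, hz, hw, one_mul]

theorem inv_mem_mu {n : ℕ} (hn : 0 < n) {z : ℂ} (hz : z ∈ mu n) : z⁻¹ ∈ mu n := by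
  rw [mem_mu hn] at *
  rw [inv_pow, hz, inv_one]

theorem div_mem_mu {n : ℕ} (hn : 0 < n) {z w : ℂ} (hz : z ∈ mu n) (hw : w ∈ mu n) : z / w ∈ mu n := by
  rw [div_eq_mul_inv]
  exact mul_mem_mu hn hz (inv_mem_mu hn hw)

theorem one_mem_mu {n : ℕ} (hn : 0 < n) : (1 : ℂ) ∈ mu n := by
  rw [mem_mu hn, one_pow]

theorem dist_unit {x g : ℂ} (hx : ‖x‖ = 1) : dist x (g * x) = ‖1 - g‖ := by
  rw [dist_eq_norm]
  have : x - g * x = (1 - g) * x := by ring
  rw [this, norm_mul, hx, mul_one]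

theorem norm_one_sub_inv {g : ℂ} (hg : ‖g‖ = 1) : ‖1 - g⁻¹‖ = ‖1 - g‖ := by
  have hg0 : g ≠ 0 := by
    rintro rfl
    rw [norm_zero] at hg
    exact zero_ne_one hg
  have : 1 - g⁻¹ = -(1 - g) * g⁻¹ := by field_simp; ring
  rw [this, norm_mul, norm_neg, norm_inv, hg, inv_one, mul_one]

theorem Qn_mu {n : ℕ} (hn : 0 < n) : 2 * n ^ 3 ≤ Qn (mu n) + 3 * n ^ 2 := by
  have key : ∀ p ∈ (mu n).offDiag, 2 * n ≤ Rn (mu n) (dist p.1 p.2) + (if p.2 = -p.1 then n else 0) := by
    rintro ⟨x, y⟩ hp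
    rw [Finset.mem_offDiag] at hp
    obtain ⟨hx, hy, hne⟩ := hp
    simp only at hx hy hne ⊢
    have hx1 := norm_mu hn hx
    have hx0 : x ≠ 0 := by
      rintro rfl
      rw [norm_zero] at hx1
      exact zero_ne_one hx1
    have hg : y / x ∈ mu n := div_mem_mu hn hy hx
    have hg1 := norm_mu hn hg
    have hg0 : y / x ≠ 0 := by
      intro h
      rw [h, norm_zero] at hg1
      exact zero_ne_one hg1
    have hgne : y / x ≠ 1 := by
      intro h
      rw [div_eq_one_iff_eq hx0] at h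
      exact hne h.symm
    have hd : dist x y = ‖1 - y / x‖ := by
      have : y = y / x * x := by field_simp
      conv_lhs => rw [this]
      exact dist_unit hx1
    set g := y / x with hgd
    have hsub1 : (mu n).image (fun u => (u, g * u)) ⊆
        (mu n).offDiag.filter (fun p : ℂ × ℂ => dist p.1 p.2 = dist x y) := by
      intro q hq
      obtain ⟨u, hu, rfl⟩ := Finset.mem_image.1 hq
      refine Finset.mem_filter.2 ⟨Finset.mem_offDiag.2 ⟨hu, mul_mem_mu hn hg hu, ?_⟩, ?_⟩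
      · intro h
        simp only at h
        have hu0 : u ≠ 0 := by
          intro h0
          have := norm_mu hn hu
          rw [h0, norm_zero] at this
          exact zero_ne_one this
        exact hgne (mul_right_cancel₀ hu0 (by rw [one_mul]; exact h.symm))
      · simp only
        rw [dist_unit (norm_mu hn hu), hd]
    have hsub2 : (mu n).image (fun u => (u, g⁻¹ * u)) ⊆
        (mu n).offDiag.filter (fun p : ℂ × ℂ => dist p.1 p.2 = dist x y) := by
      intro q hq
      obtain ⟨u, hu, rfl⟩ := Finset.mem_image.1 hq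
      refine Finset.mem_filter.2 ⟨Finset.mem_offDiag.2 ⟨hu, mul_mem_mu hn (inv_mem_mu hn hg) hu, ?_⟩, ?_⟩
      · intro h
        simp only at h
        have hu0 : u ≠ 0 := by
          intro h0
          have := norm_mu hn hu
          rw [h0, norm_zero] at this
          exact zero_ne_one this
        have h3 : g⁻¹ = 1 := (mul_right_cancel₀ hu0 (by rw [one_mul]; exact h.symm))
        exact hgne (inv_eq_one.1 h3)
      · simp only
        rw [dist_unit (norm_mu hn hu), norm_one_sub_inv hg1, hd]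
    have hc1 : ((mu n).image (fun u => (u, g * u))).card = n := by
      rw [Finset.card_image_of_injective _ (fun u v h => (Prod.mk.inj h).1), card_mu hn]
    have hc2 : ((mu n).image (fun u => (u, g⁻¹ * u))).card = n := by
      rw [Finset.card_image_of_injective _ (fun u v h => (Prod.mk.inj h).1), card_mu hn]
    by_cases hy' : y = -x
    · rw [if_pos hy']
      have := Finset.card_le_card hsub1
      rw [hc1] at this
      unfold Rn
      omega
    · rw [if_neg hy']
      have hdis : Disjoint ((mu n).image (fun u => (u, g * u))) ((mu n).image (fun u => (u, g⁻¹ * u))) := by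
        rw [Finset.disjoint_left]
        intro q h1 h2
        obtain ⟨u, hu, rfl⟩ := Finset.mem_image.1 h1
        obtain ⟨v, hv, h3⟩ := Finset.mem_image.1 h2
        simp only [Prod.mk.injEq] at h3
        obtain ⟨rfl, h4⟩ := h3
        have hu0 : v ≠ 0 := by
          intro h0
          have := norm_mu hn hv
          rw [h0, norm_zero] at this
          exact zero_ne_one this
        have h5 : g⁻¹ = g := mul_right_cancel₀ hu0 h4
        have h6 : g * g = 1 := by
          nth_rewrite 1 [← h5]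
          exact inv_mul_cancel₀ hg0
        rcases mul_self_eq_one_iff.1 h6 with h7 | h7
        · exact hgne h7
        · apply hy'
          rw [hgd, div_eq_iff hx0] at h7
          rw [h7]; ring
      have := Finset.card_le_card (Finset.union_subset hsub1 hsub2)
      rw [Finset.card_union_of_disjoint hdis, hc1, hc2] at this
      unfold Rn
      omega
  have hsum := Finset.sum_le_sum key
  rw [Finset.sum_add_distrib, ← Qn_eq_sum_pairs, Finset.sum_const, Finset.offDiag_card, card_mu hn, smul_eq_mul] at hsum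
  have hneg : ∑ p ∈ (mu n).offDiag, (if p.2 = -p.1 then n else 0) ≤ n * n := by
    rw [← Finset.sum_filter, Finset.sum_const, smul_eq_mul]
    refine Nat.mul_le_mul_right n ?_
    have : ((mu n).offDiag.filter (fun p : ℂ × ℂ => p.2 = -p.1)) ⊆ (mu n).image (fun u => (u, -u)) := by
      rintro ⟨x, y⟩ hq
      rw [Finset.mem_filter, Finset.mem_offDiag] at hq
      exact Finset.mem_image.2 ⟨x, hq.1.1, by rw [show y = -x from hq.2]⟩
    refine (Finset.card_le_card this).trans (Finset.card_image_le.trans ?_)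
    rw [card_mu hn]
  obtain ⟨m, rfl⟩ : ∃ m, n = m + 1 := ⟨n - 1, by omega⟩
  have h9 : (m + 1) * (m + 1) - (m + 1) = (m + 1) * m := by
    have : (m + 1) * (m + 1) = (m + 1) * m + (m + 1) := by ring
    omega
  rw [h9] at hsum
  nlinarith [hsum, hneg]

end Pool.Agent.Lib.MP_0d8f69_co
end

section

set_option autoImplicit false

namespace Pool.Agent.Lib.MP_0d8f69_co

theorem ne_zero_of_norm {z : ℂ} (h : ‖z‖ = 1) : z ≠ 0 := by
  rintro rfl
  rw [norm_zero] at h
  exact zero_ne_one h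

theorem wn_le (A : Finset ℂ) (g : ℂ) : wn A g ≤ A.card := Finset.card_filter_le _ _

theorem wn_one (A : Finset ℂ) : wn A 1 = A.card := by
  unfold wn
  congr 1
  refine Finset.filter_true_of_mem fun a ha => ?_
  rw [one_mul]; exact ha

theorem wn_inv (A : Finset ℂ) {g : ℂ} (hg : g ≠ 0) : wn A g⁻¹ = wn A g := by
  unfold wn
  refine Finset.card_bij (fun a _ => g⁻¹ * a) ?_ ?_ ?_
  · intro a ha
    rw [Finset.mem_filter] at ha ⊢
    exact ⟨ha.2, by rw [mul_inv_cancel_left₀ hg]; exact ha.1⟩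
  · intro a _ b _ h
    exact mul_left_cancel₀ (inv_ne_zero hg) h
  · intro b hb
    rw [Finset.mem_filter] at hb
    refine ⟨g * b, ?_, inv_mul_cancel_left₀ hg b⟩
    rw [Finset.mem_filter]
    exact ⟨hb.2, by rw [inv_mul_cancel_left₀ hg]; exact hb.1⟩

theorem card_pairs_div {A : Finset ℂ} (hA : Uc A) (g : ℂ) :
    ((A ×ˢ A).filter (fun p : ℂ × ℂ => p.1 / p.2 = g)).card = wn A g := by
  unfold wn
  refine Finset.card_bij (fun p _ => p.2) ?_ ?_ ?_
  · intro p hp
    rw [Finset.mem_filter, Finset.mem_product] at hp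
    rw [Finset.mem_filter]
    refine ⟨hp.1.2, ?_⟩
    rw [← hp.2, div_mul_cancel₀ _ (ne_zero_of_norm (hA _ hp.1.2))]
    exact hp.1.1
  · rintro ⟨a, b⟩ hp ⟨c, d⟩ hq h
    rw [Finset.mem_filter, Finset.mem_product] at hp hq
    simp only at hp hq h
    subst h
    have hb := ne_zero_of_norm (hA _ hp.1.2)
    have h1 := hp.2.trans hq.2.symm
    rw [div_left_inj' hb] at h1
    rw [h1]
  · intro b hb
    rw [Finset.mem_filter] at hb
    refine ⟨(g * b, b), ?_, rfl⟩
    rw [Finset.mem_filter, Finset.mem_product]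
    exact ⟨⟨hb.2, hb.1⟩, mul_div_cancel_right₀ _ (ne_zero_of_norm (hA _ hb.1))⟩

/-- sum over pairs by the quotient -/
theorem sum_pairs_div {A : Finset ℂ} (hA : Uc A) (f : ℂ → ℕ) :
    ∑ p ∈ A ×ˢ A, f (p.1 / p.2) = ∑ g ∈ qs A, wn A g * f g := by
  rw [← Finset.sum_fiberwise_of_maps_to (g := fun p : ℂ × ℂ => p.1 / p.2)
    (fun p hp => Finset.mem_image_of_mem _ hp)]
  unfold qs
  refine Finset.sum_congr rfl fun g _ => ?_
  rw [← card_pairs_div hA, Finset.card_eq_sum_ones, Finset.sum_mul]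
  refine Finset.sum_congr rfl fun p hp => ?_
  rw [(Finset.mem_filter.1 hp).2, one_mul]

theorem sum_wn {A : Finset ℂ} (hA : Uc A) : ∑ g ∈ qs A, wn A g = A.card ^ 2 := by
  have h := sum_pairs_div hA (fun _ => 1)
  simp only [mul_one, Finset.sum_const, smul_eq_mul] at h
  rw [← h, Finset.card_product, sq]

theorem En_eq {A : Finset ℂ} (hA : Uc A) : En A = ∑ p ∈ A ×ˢ A, wn A (p.1 / p.2) := by
  rw [sum_pairs_div hA (wn A)]
  unfold En
  exact Finset.sum_congr rfl fun g _ => sq _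

theorem norm_qs {A : Finset ℂ} (hA : Uc A) {g : ℂ} (hg : g ∈ qs A) : ‖g‖ = 1 := by
  unfold qs at hg
  obtain ⟨p, hp, rfl⟩ := Finset.mem_image.1 hg
  rw [Finset.mem_product] at hp
  rw [norm_div, hA _ hp.1, hA _ hp.2, div_one]

theorem mem_qs_of_wn {A : Finset ℂ} (hA : Uc A) {g : ℂ} (h : 0 < wn A g) : g ∈ qs A := by
  unfold wn at h
  obtain ⟨a, ha⟩ := Finset.card_pos.1 h
  rw [Finset.mem_filter] at ha
  unfold qs
  exact Finset.mem_image.2 ⟨(g * a, a), Finset.mem_product.2 ⟨ha.2, ha.1⟩,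
    mul_div_cancel_right₀ _ (ne_zero_of_norm (hA _ ha.1))⟩

theorem wn_div (A : Finset ℂ) {g h : ℂ} (hh : h ≠ 0) : wn A g + wn A h ≤ wn A (g / h) + A.card := by
  unfold wn
  have h1 : (A.filter (fun a => g * a ∈ A)) ∪ (A.filter (fun a => h * a ∈ A)) ⊆ A :=
    Finset.union_subset (Finset.filter_subset _ _) (Finset.filter_subset _ _)
  have h2 := Finset.card_union_add_card_inter (A.filter (fun a => g * a ∈ A)) (A.filter (fun a => h * a ∈ A))
  have h3 := Finset.card_le_card h1
  have h4 : ((A.filter (fun a => g * a ∈ A)) ∩ (A.filter (fun a => h * a ∈ A))).card ≤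
      (A.filter (fun a => g / h * a ∈ A)).card := by
    refine Finset.card_le_card_of_injOn (fun a => h * a) ?_ ?_
    · intro a ha
      rw [Finset.mem_coe, Finset.mem_inter, Finset.mem_filter, Finset.mem_filter] at ha
      rw [Finset.mem_coe, Finset.mem_filter]
      refine ⟨ha.2.2, ?_⟩
      rw [← mul_assoc, div_mul_cancel₀ _ hh]
      exact ha.1.2
    · intro a _ b _ hab
      exact mul_left_cancel₀ hh hab
  omega

theorem circle_eq {g g' : ℂ} (hg : ‖g‖ = 1) (hg' : ‖g'‖ = 1) (h : ‖1 - g‖ = ‖1 - g'‖) : g' = g ∨ g' = g⁻¹ := by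
  have e1 : g.re * g.re + g.im * g.im = 1 := by
    have := Complex.sq_norm g
    rw [hg, Complex.normSq_apply] at this
    linarith
  have e2 : g'.re * g'.re + g'.im * g'.im = 1 := by
    have := Complex.sq_norm g'
    rw [hg', Complex.normSq_apply] at this
    linarith
  have e3 : (1 - g.re) * (1 - g.re) + g.im * g.im = (1 - g'.re) * (1 - g'.re) + g'.im * g'.im := by
    have h1 := Complex.sq_norm (1 - g)
    have h2 := Complex.sq_norm (1 - g')
    rw [Complex.normSq_apply] at h1 h2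
    rw [h] at h1
    simp only [Complex.sub_re, Complex.one_re, Complex.sub_im, Complex.one_im, zero_sub] at h1 h2
    linarith
  have e4 : g'.re = g.re := by linarith
  have e5 : g'.im * g'.im = g.im * g.im := by rw [e4] at e2; linarith
  rcases mul_self_eq_mul_self_iff.1 e5 with h6 | h6
  · left
    exact Complex.ext e4 h6
  · right
    have h7 : g⁻¹ = (starRingEnd ℂ) g := by
      have hg0 := ne_zero_of_norm hg
      rw [inv_eq_iff_eq_inv, ← mul_eq_one_iff_eq_inv₀ (by simpa using hg0)]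
      rw [Complex.mul_conj, Complex.normSq_apply, e1]
      norm_num
    rw [h7]
    exact Complex.ext (by simp [e4]) (by simp [h6])

theorem dist_unit' {x y : ℂ} (hy : ‖y‖ = 1) : dist x y = ‖1 - x / y‖ := by
  have h := dist_unit (x := y) (g := x / y) hy
  rw [div_mul_cancel₀ _ (ne_zero_of_norm hy)] at h
  rw [dist_comm]
  exact h

theorem Rn_le_wn {A : Finset ℂ} (hA : Uc A) {x y : ℂ} (hx : x ∈ A) (hy : y ∈ A) :
    Rn A (dist x y) ≤ 2 * wn A (x / y) := by
  have h1 : A.offDiag.filter (fun p : ℂ × ℂ => dist p.1 p.2 = dist x y) ⊆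
      (A ×ˢ A).filter (fun p : ℂ × ℂ => p.1 / p.2 = x / y) ∪
        (A ×ˢ A).filter (fun p : ℂ × ℂ => p.1 / p.2 = (x / y)⁻¹) := by
    rintro ⟨u, v⟩ hp
    rw [Finset.mem_filter, Finset.mem_offDiag] at hp
    obtain ⟨⟨hu, hv, _⟩, hd⟩ := hp
    simp only at hu hv hd
    rw [dist_unit' (hA _ hv), dist_unit' (hA _ hy)] at hd
    rw [Finset.mem_union, Finset.mem_filter, Finset.mem_filter, Finset.mem_product]
    rcases circle_eq (g := x / y) (g' := u / v) (by rw [norm_div, hA _ hx, hA _ hy, div_one])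
      (by rw [norm_div, hA _ hu, hA _ hv, div_one]) hd.symm with h | h
    · exact Or.inl ⟨⟨hu, hv⟩, h⟩
    · exact Or.inr ⟨⟨hu, hv⟩, h⟩
  have h2 := (Finset.card_le_card h1).trans (Finset.card_union_le _ _)
  rw [card_pairs_div hA, card_pairs_div hA, wn_inv A (div_ne_zero (ne_zero_of_norm (hA _ hx)) (ne_zero_of_norm (hA _ hy)))] at h2
  unfold Rn
  omega

theorem Rn_le {A : Finset ℂ} (hA : Uc A) (D : ℝ) : Rn A D ≤ 2 * A.card := by
  by_cases h : ∃ p ∈ A.offDiag, dist p.1 p.2 = D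
  · obtain ⟨p, hp, rfl⟩ := h
    rw [Finset.mem_offDiag] at hp
    exact (Rn_le_wn hA hp.1 hp.2.1).trans (Nat.mul_le_mul_left 2 (wn_le _ _))
  · have : Rn A D = 0 := by
      unfold Rn
      rw [Finset.card_eq_zero, Finset.filter_eq_empty_iff]
      intro p hp hD
      exact h ⟨p, hp, hD⟩
    omega

theorem Qn_le_En {A : Finset ℂ} (hA : Uc A) : Qn A + 2 * A.card ^ 2 ≤ 2 * En A := by
  rw [Qn_eq_sum_pairs, En_eq hA]
  have h1 : ∑ p ∈ A.offDiag, Rn A (dist p.1 p.2) ≤ ∑ p ∈ A.offDiag, 2 * wn A (p.1 / p.2) := by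
    refine Finset.sum_le_sum fun p hp => ?_
    rw [Finset.mem_offDiag] at hp
    exact Rn_le_wn hA hp.1 hp.2.1
  have h2 : ∑ p ∈ A ×ˢ A, wn A (p.1 / p.2) = ∑ p ∈ A.diag, wn A (p.1 / p.2) + ∑ p ∈ A.offDiag, wn A (p.1 / p.2) := by
    rw [← Finset.sum_union (Finset.disjoint_diag_offDiag A), Finset.diag_union_offDiag]
  have h3 : ∑ p ∈ A.diag, wn A (p.1 / p.2) = A.card ^ 2 := by
    have h4 : ∀ p ∈ A.diag, wn A (p.1 / p.2) = A.card := by
      intro p hp
      rw [Finset.mem_diag] at hp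
      rw [← hp.2, div_self (ne_zero_of_norm (hA _ hp.1)), wn_one]
    rw [Finset.sum_congr rfl h4, Finset.sum_const, smul_eq_mul, Finset.diag_card, sq]
  rw [← Finset.mul_sum] at h1
  omega

theorem En_le {A : Finset ℂ} (hA : Uc A) : En A ≤ A.card ^ 3 := by
  unfold En
  calc ∑ g ∈ qs A, wn A g ^ 2 ≤ ∑ g ∈ qs A, A.card * wn A g := by
        refine Finset.sum_le_sum fun g _ => ?_
        rw [sq]
        exact Nat.mul_le_mul_right _ (wn_le _ _)
    _ = A.card ^ 3 := by rw [← Finset.mul_sum, sum_wn hA]; ring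

end Pool.Agent.Lib.MP_0d8f69_co
end

section

set_option autoImplicit false

open Real

namespace Pool.Agent.Lib.MP_0d8f69_co

/-- the `N`-th root of unity with index `j` -/
noncomputable def ze (N : ℕ) (j : ℤ) : ℂ := Complex.exp ((((2 * π * j / N : ℝ)) : ℂ) * Complex.I)

theorem ze_mem {N : ℕ} (hN : 0 < N) (j : ℤ) : ze N j ∈ mu N := by
  have hN0 : (N : ℝ) ≠ 0 := by positivity
  rw [mem_mu hN]
  unfold ze
  rw [← Complex.exp_nat_mul, Complex.exp_eq_one_iff]
  refine ⟨j, ?_⟩
  have hN1 : (N : ℂ) ≠ 0 := by exact_mod_cast hN.ne'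
  push_cast
  field_simp

theorem ze_inj {N : ℕ} (hN : 0 < N) {i j : ℤ} (h : ze N i = ze N j) (hij : |(i : ℝ) - j| < N) : i = j := by
  unfold ze at h
  rw [Complex.exp_eq_exp_iff_exists_int] at h
  obtain ⟨n, hn⟩ := h
  have hN0 : (N : ℝ) ≠ 0 := by positivity
  have h1 : (2 * π * i / N : ℝ) = 2 * π * j / N + n * (2 * π) := by
    have h2 : ((((2 * π * i / N : ℝ)) : ℂ)) = (((2 * π * j / N + n * (2 * π) : ℝ)) : ℂ) := by
      have h3 : (((2 * π * i / N : ℝ) : ℂ)) * Complex.I = (((2 * π * j / N + n * (2 * π) : ℝ)) : ℂ) * Complex.I := by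
        rw [hn]
        push_cast
        ring
      exact mul_right_cancel₀ Complex.I_ne_zero h3
    exact_mod_cast h2
  have hpi : (0 : ℝ) < 2 * π := by positivity
  have h4 : (i : ℝ) = j + n * N := by
    field_simp at h1
    nlinarith [h1]
  have h5 : i = j + n * N := by exact_mod_cast h4
  have h6 : |(n : ℝ)| * N < N := by
    have : (i : ℝ) - j = n * N := by rw [h4]; ring
    rw [this, abs_mul, abs_of_nonneg (by positivity : (0 : ℝ) ≤ N)] at hij
    exact hij
  have hNpos : (0 : ℝ) < N := by exact_mod_cast hN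
  have h7 : |(n : ℝ)| < 1 := by
    by_contra hcon
    push Not at hcon
    nlinarith
  have h8 : n = 0 := by
    have : |n| < 1 := by exact_mod_cast h7
    exact Int.abs_lt_one_iff.1 this
  rw [h5, h8]; ring

theorem ze_re {N : ℕ} (j : ℤ) (φ : ℝ) :
    (ze N j * Complex.exp (-(φ : ℂ) * Complex.I)).re = cos (2 * π * j / N - φ) := by
  unfold ze
  rw [← Complex.exp_add]
  have : (((2 * π * j / N : ℝ)) : ℂ) * Complex.I + -(φ : ℂ) * Complex.I =
      (((2 * π * j / N - φ : ℝ)) : ℂ) * Complex.I := by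
    push_cast; ring
  rw [this, Complex.exp_ofReal_mul_I_re]

theorem round_mono' {x y : ℝ} (h : x ≤ y) : round x ≤ round y := by
  rw [round_eq, round_eq]
  exact Int.floor_le_floor (by linarith)

/-- lower bound for the number of roots of unity in an open arc -/
theorem count_lower {N : ℕ} (hN : 0 < N) (φ : ℝ) {β : ℝ} (h1 : β < π) :
    N * β / π - 1 ≤ (((mu N).filter (fun q => cos β < (q * Complex.exp (-(φ : ℂ) * Complex.I)).re)).card : ℝ) := by
  have hNpos : (0 : ℝ) < N := by exact_mod_cast hN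
  set a : ℝ := (φ - β) * N / (2 * π) with ha
  set b : ℝ := (φ + β) * N / (2 * π) with hb
  have hab : b - a = N * β / π := by
    rw [ha, hb]; field_simp; ring
  have hmem : ∀ j : ℤ, j ∈ Finset.Ioo ⌊a⌋ ⌈b⌉ ↔ a < j ∧ (j : ℝ) < b := fun j => by
    rw [Finset.mem_Ioo, Int.floor_lt, Int.lt_ceil]
  have hlt : N * β / π < N := by
    rw [div_lt_iff₀ pi_pos]
    exact mul_lt_mul_of_pos_left h1 hNpos
  have hinj : Set.InjOn (ze N) (Finset.Ioo ⌊a⌋ ⌈b⌉ : Set ℤ) := by
    intro i hi j hj hij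
    rw [Finset.mem_coe, hmem] at hi hj
    refine ze_inj hN hij ?_
    rw [abs_lt]
    constructor <;> linarith [hi.1, hi.2, hj.1, hj.2]
  have hsub : (Finset.Ioo ⌊a⌋ ⌈b⌉).image (ze N) ⊆
      (mu N).filter (fun q => cos β < (q * Complex.exp (-(φ : ℂ) * Complex.I)).re) := by
    intro q hq
    obtain ⟨j, hj, rfl⟩ := Finset.mem_image.1 hq
    rw [hmem] at hj
    refine Finset.mem_filter.2 ⟨ze_mem hN j, ?_⟩
    rw [ze_re]
    have e1 : φ - β < 2 * π * j / N := by
      have := hj.1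
      rw [ha, div_lt_iff₀ (by positivity)] at this
      rw [lt_div_iff₀ hNpos]
      linarith
    have e2 : 2 * π * j / N < φ + β := by
      have := hj.2
      rw [hb, lt_div_iff₀ (by positivity)] at this
      rw [div_lt_iff₀ hNpos]
      linarith
    rw [← cos_abs (2 * π * j / N - φ)]
    refine cos_lt_cos_of_nonneg_of_le_pi (abs_nonneg _) h1.le ?_
    rw [abs_lt]
    constructor <;> linarith
  have hcard := Finset.card_le_card hsub
  rw [Finset.card_image_of_injOn hinj, Int.card_Ioo] at hcard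
  have e3 : ((⌈b⌉ - ⌊a⌋ - 1 : ℤ) : ℝ) ≤ (((⌈b⌉ - ⌊a⌋ - 1).toNat : ℕ) : ℝ) := by
    have := Int.self_le_toNat (⌈b⌉ - ⌊a⌋ - 1)
    exact_mod_cast this
  have e4 : (((⌈b⌉ - ⌊a⌋ - 1).toNat : ℕ) : ℝ) ≤
      (((mu N).filter (fun q => cos β < (q * Complex.exp (-(φ : ℂ) * Complex.I)).re)).card : ℝ) := by
    exact_mod_cast hcard
  have e5 : b - a - 1 ≤ ((⌈b⌉ - ⌊a⌋ - 1 : ℤ) : ℝ) := by
    push_cast
    have := Int.le_ceil b
    have := Int.floor_le a
    linarith
  linarith

theorem count_int (N : ℕ) (x : ℝ) {r : ℝ} (hr : 0 ≤ r) :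
    (((Finset.range N).filter (fun j : ℕ => |(j : ℝ) - x| < r)).card : ℝ) ≤ 2 * r + 1 := by
  have hsub : ((Finset.range N).filter (fun j : ℕ => |(j : ℝ) - x| < r)).image (fun j : ℕ => (j : ℤ)) ⊆
      Finset.Ioo ⌊x - r⌋ ⌈x + r⌉ := by
    intro j hj
    obtain ⟨i, hi, rfl⟩ := Finset.mem_image.1 hj
    have := (Finset.mem_filter.1 hi).2
    rw [abs_lt] at this
    rw [Finset.mem_Ioo, Int.floor_lt, Int.lt_ceil]
    push_cast
    constructor <;> linarith
  have hcard := Finset.card_le_card hsub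
  rw [Finset.card_image_of_injective _ Nat.cast_injective, Int.card_Ioo] at hcard
  have e1 : (((Finset.range N).filter (fun j : ℕ => |(j : ℝ) - x| < r)).card : ℝ) ≤
      (((⌈x + r⌉ - ⌊x - r⌋ - 1).toNat : ℕ) : ℝ) := by exact_mod_cast hcard
  refine e1.trans ?_
  by_cases h : 0 ≤ ⌈x + r⌉ - ⌊x - r⌋ - 1
  · have e2 : (((⌈x + r⌉ - ⌊x - r⌋ - 1).toNat : ℕ) : ℝ) = ((⌈x + r⌉ - ⌊x - r⌋ - 1 : ℤ) : ℝ) := by
      have := Int.toNat_of_nonneg h
      exact_mod_cast this
    rw [e2]
    push_cast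
    have := Int.ceil_lt_add_one (x + r)
    have := Int.sub_one_lt_floor (x - r)
    linarith
  · rw [Int.toNat_of_nonpos (by omega)]
    push_cast
    linarith

/-- upper bound for the number of indices near the multiples of `π` -/
theorem count_upper {N : ℕ} (hN : 0 < N) (c : ℝ) {l : ℝ} (hl : 0 ≤ l) :
    (((Finset.range N).filter (fun j : ℕ => |sin (2 * π * j / N + c)| < l)).card : ℝ) ≤ 3 * (N * l / 2 + 1) := by
  have hNpos : (0 : ℝ) < N := by exact_mod_cast hN
  set l0 : ℤ := round (c / π) with hl0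
  have hsub : (Finset.range N).filter (fun j : ℕ => |sin (2 * π * j / N + c)| < l) ⊆
      (Finset.range 3).biUnion fun i => (Finset.range N).filter
        (fun j : ℕ => |(j : ℝ) - (((l0 : ℝ) + i) * π - c) * N / (2 * π)| < N * l / 4) := by
    intro j hj
    rw [Finset.mem_filter, Finset.mem_range] at hj
    obtain ⟨hjN, hs⟩ := hj
    set t : ℝ := 2 * π * j / N + c with ht
    set m : ℤ := round (t / π) with hm
    have hr := abs_sub_round (t / π)
    rw [← hm] at hr
    have hr2 : |t - m * π| ≤ π / 2 := by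
      have : t - m * π = (t / π - m) * π := by field_simp
      rw [this, abs_mul, abs_of_pos pi_pos]
      nlinarith [pi_pos]
    have hsin : |sin t| = |sin (t - m * π)| := by
      rw [sin_sub_int_mul_pi, abs_mul]
      have : |((-1 : ℝ)) ^ m| = 1 := by rw [abs_zpow, abs_neg, abs_one, one_zpow]
      rw [this, one_mul]
    have hlow : 2 / π * |t - m * π| ≤ |sin (t - m * π)| := mul_abs_le_abs_sin hr2
    have hb : |t - m * π| < π * l / 2 := by
      have h1 : 2 / π * |t - m * π| < l := lt_of_le_of_lt hlow (by rw [← hsin]; exact hs)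
      have h2 : |t - m * π| = (2 / π * |t - m * π|) * (π / 2) := by field_simp
      rw [h2]
      have hpi2 : 0 < π / 2 := by positivity
      nlinarith
    have hmge : l0 ≤ m := by
      rw [hl0, hm]
      refine round_mono' ?_
      rw [ht]
      gcongr
      have : 0 ≤ 2 * π * j / N := by positivity
      linarith
    have hmle : m ≤ l0 + 2 := by
      rw [hl0, hm]
      have e1 : round (c / π) + 2 = round (c / π + (2 : ℤ)) := by rw [round_add_intCast]
      rw [e1]
      refine round_mono' ?_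
      rw [ht]
      have hj1 : (j : ℝ) < N := by exact_mod_cast hjN
      have e2 : 2 * π * j / N ≤ 2 * π := by
        rw [div_le_iff₀ hNpos]
        nlinarith [pi_pos]
      have e3 : (2 * π * j / N + c) / π ≤ (2 * π + c) / π := by gcongr
      refine e3.trans (le_of_eq ?_)
      push_cast
      field_simp
      ring
    rw [Finset.mem_biUnion]
    refine ⟨(m - l0).toNat, Finset.mem_range.2 (by omega), ?_⟩
    rw [Finset.mem_filter]
    refine ⟨Finset.mem_range.2 hjN, ?_⟩
    have e1 : (((m - l0).toNat : ℕ) : ℝ) = (m : ℝ) - l0 := by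
      have := Int.toNat_of_nonneg (by omega : 0 ≤ m - l0)
      exact_mod_cast this
    rw [e1]
    have e2 : (j : ℝ) - (((l0 : ℝ) + ((m : ℝ) - l0)) * π - c) * N / (2 * π) = (t - m * π) * (N / (2 * π)) := by
      rw [ht]; field_simp; ring
    rw [e2, abs_mul, abs_of_pos (by positivity : (0 : ℝ) < N / (2 * π))]
    calc |t - m * π| * (N / (2 * π)) < π * l / 2 * (N / (2 * π)) :=
          mul_lt_mul_of_pos_right hb (by positivity)
      _ = N * l / 4 := by field_simp; ring
  have hcard := (Finset.card_le_card hsub).trans Finset.card_biUnion_le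
  have e1 : (((Finset.range N).filter (fun j : ℕ => |sin (2 * π * j / N + c)| < l)).card : ℝ) ≤
      ∑ i ∈ Finset.range 3, (((Finset.range N).filter
        (fun j : ℕ => |(j : ℝ) - (((l0 : ℝ) + i) * π - c) * N / (2 * π)| < N * l / 4)).card : ℝ) := by
    exact_mod_cast hcard
  refine e1.trans ?_
  refine (Finset.sum_le_sum fun i _ => count_int N _ (by positivity)).trans (le_of_eq ?_)
  rw [Finset.sum_const, Finset.card_range, nsmul_eq_mul]
  push_cast
  ring

theorem count_cos {N : ℕ} (hN : 0 < N) (c κ : ℝ) :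
    ((Finset.range N).filter (fun j : ℕ => cos (2 * π * j / N + c) = κ)).card ≤ 2 := by
  have hmap : ((Finset.range N).filter (fun j : ℕ => cos (2 * π * j / N + c) = κ)).card ≤
      ({√(1 - κ ^ 2), -√(1 - κ ^ 2)} : Finset ℝ).card := by
    refine Finset.card_le_card_of_injOn (fun j : ℕ => sin (2 * π * j / N + c)) ?_ ?_
    · intro j hj
      have h1 := (Finset.mem_filter.1 (Finset.mem_coe.1 hj)).2
      rw [Finset.mem_coe, Finset.mem_insert, Finset.mem_singleton]
      have h2 := sin_sq_add_cos_sq (2 * π * j / N + c)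
      rw [h1] at h2
      have h3 : sin (2 * π * j / N + c) ^ 2 = 1 - κ ^ 2 := by linarith
      have h4 : √(1 - κ ^ 2) ^ 2 = 1 - κ ^ 2 := by
        rw [sq_sqrt]
        rw [← h3]; positivity
      exact sq_eq_sq_iff_eq_or_eq_neg.1 (h3.trans h4.symm)
    · intro i hi j hj hij
      have h1 := Finset.mem_filter.1 (Finset.mem_coe.1 hi)
      have h2 := Finset.mem_filter.1 (Finset.mem_coe.1 hj)
      simp only at hij
      have h3 : ze N i = ze N j := by
        unfold ze
        have h4 : Complex.exp ((((2 * π * i / N + c : ℝ)) : ℂ) * Complex.I) =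
            Complex.exp ((((2 * π * j / N + c : ℝ)) : ℂ) * Complex.I) := by
          refine Complex.ext ?_ ?_
          · rw [Complex.exp_ofReal_mul_I_re, Complex.exp_ofReal_mul_I_re, h1.2, h2.2]
          · rw [Complex.exp_ofReal_mul_I_im, Complex.exp_ofReal_mul_I_im, hij]
        have h5 : ∀ x : ℝ, Complex.exp ((((x + c : ℝ)) : ℂ) * Complex.I) =
            Complex.exp (((x : ℝ) : ℂ) * Complex.I) * Complex.exp ((c : ℂ) * Complex.I) := fun x => by
          rw [← Complex.exp_add]; push_cast; ring_nf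
        rw [h5, h5] at h4
        have h6 := mul_right_cancel₀ (Complex.exp_ne_zero _) h4
        push_cast at h6 ⊢
        exact h6
      have h4 := ze_inj hN h3 (by
        have hi' : (i : ℝ) < N := by exact_mod_cast Finset.mem_range.1 h1.1
        have hj' : (j : ℝ) < N := by exact_mod_cast Finset.mem_range.1 h2.1
        have hi0 : (0 : ℝ) ≤ i := Nat.cast_nonneg _
        have hj0 : (0 : ℝ) ≤ j := Nat.cast_nonneg _
        push_cast
        rw [abs_lt]
        constructor <;> linarith)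
      exact_mod_cast h4
  exact hmap.trans Finset.card_le_two

end Pool.Agent.Lib.MP_0d8f69_co
end

section

set_option autoImplicit false

namespace Pool.Agent.Lib.MP_0d8f69_co

theorem finset_subgroup {H : Finset ℂ} (hne : H.Nonempty) (h0 : (0 : ℂ) ∉ H)
    (hdiv : ∀ g ∈ H, ∀ h ∈ H, g / h ∈ H) : H = mu H.card := by
  have hpos : 0 < H.card := Finset.card_pos.2 hne
  obtain ⟨x, hx⟩ := hne
  have hx0 : x ≠ 0 := fun h => h0 (h ▸ hx)
  have h1 : (1 : ℂ) ∈ H := by
    have := hdiv x hx x hx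
    rwa [div_self hx0] at this
  have hinv : ∀ g ∈ H, g⁻¹ ∈ H := fun g hg => by
    have := hdiv 1 h1 g hg
    rwa [one_div] at this
  have hmul : ∀ g ∈ H, ∀ h ∈ H, g * h ∈ H := fun g hg h hh => by
    have := hdiv g hg h⁻¹ (hinv h hh)
    rwa [div_inv_eq_mul] at this
  refine Finset.eq_of_subset_of_card_le ?_ (by rw [card_mu hpos])
  intro g hg
  have hg0 : g ≠ 0 := fun h => h0 (h ▸ hg)
  rw [mem_mu hpos]
  have h2 : H.image (fun h => g * h) = H := by
    refine Finset.eq_of_subset_of_card_le ?_ ?_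
    · intro y hy
      obtain ⟨h, hh, rfl⟩ := Finset.mem_image.1 hy
      exact hmul g hg h hh
    · rw [Finset.card_image_of_injective _ (mul_right_injective₀ hg0)]
  have h3 : ∏ y ∈ H, y = g ^ H.card * ∏ y ∈ H, y := by
    conv_lhs => rw [← h2]
    rw [Finset.prod_image (fun a _ b _ h => mul_left_cancel₀ hg0 h), Finset.prod_mul_distrib, Finset.prod_const]
  have h4 : ∏ y ∈ H, y ≠ 0 := Finset.prod_ne_zero_iff.2 fun y hy h => h0 (h ▸ hy)
  exact (mul_right_cancel₀ h4 (by rw [one_mul]; exact h3)).symm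

/-- points on a circle: regular, or far below the value of the regular polygon -/
theorem k0 {A : Finset ℂ} (hA : Uc A) (h3 : 3 ≤ A.card) :
    (∃ a ∈ A, A = (mu A.card).image (fun z => a * z)) ∨ Qn A + 3 * A.card ^ 2 < 2 * A.card ^ 3 := by
  have hm : 0 < A.card := by omega
  set H := (qs A).filter (fun g => wn A g = A.card) with hH
  have memH : ∀ g, g ∈ H ↔ wn A g = A.card := fun g => by
    rw [hH, Finset.mem_filter]
    exact ⟨fun h => h.2, fun h => ⟨mem_qs_of_wn hA (by omega), h⟩⟩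
  have hall : ∀ g ∈ H, ∀ a ∈ A, g * a ∈ A := fun g hg => by
    have h1 := (memH g).1 hg
    unfold wn at h1
    exact Finset.filter_card_eq h1
  have hH1 : (1 : ℂ) ∈ H := (memH 1).2 (wn_one A)
  have hH0 : (0 : ℂ) ∉ H := fun h => by
    have := norm_qs hA (Finset.mem_filter.1 h).1
    rw [norm_zero] at this
    exact zero_ne_one this
  have hdiv : ∀ g ∈ H, ∀ h ∈ H, g / h ∈ H := fun g hg h hh => by
    have h1 := wn_div A (g := g) (h := h) (fun h' => hH0 (h' ▸ hh))
    rw [(memH g).1 hg, (memH h).1 hh] at h1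
    exact (memH _).2 (le_antisymm (wn_le _ _) (by omega))
  have hinv : ∀ g ∈ H, g⁻¹ ∈ H := fun g hg => by
    have := hdiv 1 hH1 g hg
    rwa [one_div] at this
  have hHmu := finset_subgroup ⟨1, hH1⟩ hH0 hdiv
  obtain ⟨s, hs⟩ := Finset.card_pos.1 hm
  have hs0 := ne_zero_of_norm (hA s hs)
  have hcoset : ∀ t ∈ A, (H.image (fun g => g * t)).card = H.card := fun t ht =>
    Finset.card_image_of_injective _ (mul_left_injective₀ (ne_zero_of_norm (hA t ht)))
  have hsub : ∀ t ∈ A, H.image (fun g => g * t) ⊆ A := fun t ht y hy => by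
    obtain ⟨g, hg, rfl⟩ := Finset.mem_image.1 hy
    exact hall g hg t ht
  have hle : H.card ≤ A.card := by
    rw [← hcoset s hs]
    exact Finset.card_le_card (hsub s hs)
  have hpos : 0 < H.card := Finset.card_pos.2 ⟨1, hH1⟩
  rcases hle.eq_or_lt with heq | hlt
  · left
    refine ⟨s, hs, ?_⟩
    rw [← heq, ← hHmu]
    have h1 : H.image (fun g => g * s) = A :=
      Finset.eq_of_subset_of_card_le (hsub s hs) (by rw [hcoset s hs, heq])
    conv_lhs => rw [← h1]
    exact Finset.image_congr fun g _ => mul_comm _ _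
  · right
    have hw : ∀ g ∈ qs A, g ∉ H → wn A g + H.card ≤ A.card := by
      intro g hg hgH
      have hlt' : wn A g < A.card := lt_of_le_of_ne (wn_le _ _) fun h => hgH ((memH g).2 h)
      have hex : ∃ t ∈ A, g * t ∉ A := by
        by_contra hcon
        push Not at hcon
        refine hlt'.ne ?_
        unfold wn
        rw [Finset.filter_true_of_mem hcon]
      obtain ⟨t, ht, htg⟩ := hex
      have hdis : Disjoint (A.filter (fun a => g * a ∈ A)) (H.image (fun g => g * t)) := by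
        rw [Finset.disjoint_left]
        intro y hy1 hy2
        obtain ⟨u, hu, rfl⟩ := Finset.mem_image.1 hy2
        have h1 := (Finset.mem_filter.1 hy1).2
        have h2 := hall _ (hinv u hu) _ h1
        apply htg
        have hu0 : u ≠ 0 := fun h' => hH0 (h' ▸ hu)
        have : u⁻¹ * (g * (u * t)) = g * t := by
          field_simp
        rwa [this] at h2
      have h1 := Finset.card_le_card (Finset.union_subset (Finset.filter_subset (fun a => g * a ∈ A) A) (hsub t ht))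
      rw [Finset.card_union_of_disjoint hdis, hcoset t ht] at h1
      exact h1
    have hsum1 : ∑ g ∈ H, wn A g = H.card * A.card := by
      rw [Finset.sum_congr rfl fun g hg => (memH g).1 hg, Finset.sum_const, smul_eq_mul]
    have hsum2 : ∑ g ∈ H, wn A g ^ 2 = H.card * A.card ^ 2 := by
      rw [Finset.sum_congr rfl fun g hg => by rw [(memH g).1 hg], Finset.sum_const, smul_eq_mul]
    have hHq : H ⊆ qs A := Finset.filter_subset _ _
    have hsplit1 : ∑ g ∈ qs A \ H, wn A g + ∑ g ∈ H, wn A g = A.card ^ 2 := by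
      rw [Finset.sum_sdiff hHq, sum_wn hA]
    have hsplit2 : ∑ g ∈ qs A \ H, wn A g ^ 2 + ∑ g ∈ H, wn A g ^ 2 = En A := by
      rw [Finset.sum_sdiff hHq]; rfl
    have hbound : ∑ g ∈ qs A \ H, wn A g ^ 2 ≤ (A.card - H.card) * ∑ g ∈ qs A \ H, wn A g := by
      rw [Finset.mul_sum]
      refine Finset.sum_le_sum fun g hg => ?_
      rw [Finset.mem_sdiff] at hg
      have := hw g hg.1 hg.2
      rw [sq]
      exact Nat.mul_le_mul_right _ (by omega)
    have hQ := Qn_le_En hA
    obtain ⟨j, hj⟩ : ∃ j, A.card = H.card + j := ⟨A.card - H.card, by omega⟩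
    have hj1 : 1 ≤ j := by omega
    rw [hsum1] at hsplit1
    rw [hsum2] at hsplit2
    have e1 : A.card - H.card = j := by omega
    rw [e1] at hbound
    set a := A.card
    set h := H.card
    set X := ∑ g ∈ qs A \ H, wn A g
    have hX : X = a * j := by
      have : a * a = a ^ 2 := (sq a).symm
      nlinarith
    rw [hX] at hbound
    have key : h * j + 1 ≥ a := by
      rw [hj]
      obtain ⟨h', hh'⟩ : ∃ h', h = h' + 1 := ⟨h - 1, by omega⟩
      obtain ⟨j', hj'⟩ : ∃ j', j = j' + 1 := ⟨j - 1, by omega⟩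
      rw [hh', hj']
      nlinarith [Nat.zero_le (h' * j')]
    have hE : En A ≤ h * a ^ 2 + j * (a * j) := by omega
    have hE2 : En A + a * (h * j) ≤ a ^ 3 := by
      have : h * a ^ 2 + j * (a * j) + a * (h * j) = a ^ 3 := by
        rw [hj]; ring
      omega
    have hE3 : En A + a * a ≤ a ^ 3 + a := by
      have : a * (h * j) + a ≥ a * a := by nlinarith
      omega
    nlinarith [hE3, hQ, h3]

end Pool.Agent.Lib.MP_0d8f69_co
end

section

set_option autoImplicit false

open Real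

namespace Pool.Agent.Lib.MP_0d8f69_co

/-- the height of `z` in the direction `ω` -/
noncomputable def ht (ω : ℝ) (z : ℂ) : ℝ := (z * Complex.exp (-(ω : ℂ) * Complex.I)).re

theorem ht_eq (ω : ℝ) (z : ℂ) : ht ω z = z.re * cos ω + z.im * sin ω := by
  unfold ht
  have h1 : Complex.exp (-(ω : ℂ) * Complex.I) = ((cos ω : ℝ) : ℂ) - ((sin ω : ℝ) : ℂ) * Complex.I := by
    have : -(ω : ℂ) * Complex.I = ((-ω : ℝ) : ℂ) * Complex.I := by push_cast; ring
    rw [this, Complex.exp_mul_I, ← Complex.ofReal_cos, ← Complex.ofReal_sin, cos_neg, sin_neg]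
    push_cast; ring
  rw [h1]
  rw [Complex.mul_re, Complex.sub_re, Complex.sub_im, Complex.mul_I_re, Complex.mul_I_im, Complex.ofReal_re,
    Complex.ofReal_im, Complex.ofReal_re, Complex.ofReal_im]
  ring

theorem ht_le (ω : ℝ) (z : ℂ) : ht ω z ≤ ‖z‖ := by
  unfold ht
  refine (Complex.re_le_norm _).trans ?_
  rw [norm_mul]
  have : ‖Complex.exp (-(ω : ℂ) * Complex.I)‖ = 1 := by
    have h : -(ω : ℂ) * Complex.I = ((-ω : ℝ) : ℂ) * Complex.I := by push_cast; ring
    rw [h, Complex.norm_exp_ofReal_mul_I]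
  rw [this, mul_one]

/-- a supporting direction -/
theorem support {S : Finset ℂ} (hS : Cvx S) {b : ℂ} (hb : b ∈ S) :
    ∃ ω : ℝ, ∀ x ∈ S, x ≠ b → ht ω x < ht ω b := by
  by_cases hne : (S.erase b).Nonempty
  swap
  · refine ⟨0, fun x hx hxb => ?_⟩
    exact absurd ⟨x, Finset.mem_erase.2 ⟨hxb, hx⟩⟩ hne
  obtain ⟨y, hy⟩ := hne
  have hcl : IsClosed (convexHull ℝ (↑(S.erase b) : Set ℂ)) :=
    (Finset.finite_toSet (S.erase b)).isClosed_convexHull ℝ
  obtain ⟨f, u, h1, h2⟩ := geometric_hahn_banach_closed_point (convex_convexHull ℝ _) hcl (hS b hb)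
  set w : ℂ := ⟨f 1, f Complex.I⟩ with hw
  have hf : ∀ z : ℂ, f z = z.re * w.re + z.im * w.im := fun z => by
    have e1 : z = z.re • (1 : ℂ) + z.im • Complex.I := by
      refine Complex.ext ?_ ?_ <;> simp
    conv_lhs => rw [e1]
    rw [map_add, map_smul, map_smul, smul_eq_mul, smul_eq_mul]
  have hlt : ∀ x ∈ S, x ≠ b → f x < f b := fun x hx hxb =>
    (h1 x (subset_convexHull ℝ _ (Finset.mem_coe.2 (Finset.mem_erase.2 ⟨hxb, hx⟩)))).trans h2
  have hw0 : w ≠ 0 := by
    intro h0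
    have e1 := hlt y (Finset.mem_of_mem_erase hy) (Finset.ne_of_mem_erase hy)
    rw [hf, hf, h0] at e1
    simp at e1
  have hwn : 0 < ‖w‖ := norm_pos_iff.2 hw0
  refine ⟨w.arg, fun x hx hxb => ?_⟩
  have e1 := hlt x hx hxb
  rw [hf, hf] at e1
  rw [ht_eq, ht_eq]
  have e2 : w.re = ‖w‖ * cos w.arg := (Complex.norm_mul_cos_arg w).symm
  have e3 : w.im = ‖w‖ * sin w.arg := (Complex.norm_mul_sin_arg w).symm
  rw [e2, e3] at e1
  nlinarith

theorem pi_sq_lt : π ^ 2 < 9.87 := by
  have := pi_lt_d4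
  have := pi_pos
  nlinarith

theorem cos_beta {k N : ℕ} (hN : 0 < N) {β : ℝ} (hβ : β = 84 * π * k / N) :
    1 - 34900 * (k : ℝ) ^ 2 / N ^ 2 ≤ cos β := by
  refine le_trans ?_ (one_sub_sq_div_two_le_cos)
  have hNpos : (0 : ℝ) < N := by exact_mod_cast hN
  have h1 : β ^ 2 / 2 = 3528 * π ^ 2 * ((k : ℝ) ^ 2 / N ^ 2) := by
    rw [hβ]; field_simp; ring
  have h2 : 34900 * (k : ℝ) ^ 2 / N ^ 2 = 34900 * ((k : ℝ) ^ 2 / N ^ 2) := by ring
  rw [h1, h2]
  have h3 : 0 ≤ (k : ℝ) ^ 2 / N ^ 2 := by positivity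
  have := pi_sq_lt
  nlinarith

theorem radial_in {S : Finset ℂ} (hS : Cvx S) {k N : ℕ} (hk : 1 ≤ k) (hN : 1000 * k ≤ N)
    (hmiss : (mu N \ S).card ≤ 80 * k) {p : ℂ} (hp : p ∈ S) (hp1 : ‖p‖ ≠ 1) :
    1 - 70000 * (k : ℝ) ^ 2 / N ^ 2 ≤ ‖p‖ := by
  have hN0 : 0 < N := by omega
  have hNpos : (0 : ℝ) < N := by exact_mod_cast hN0
  have hkpos : (0 : ℝ) < k := by exact_mod_cast hk
  have hNk : 1000 * (k : ℝ) ≤ N := by exact_mod_cast hN
  by_contra hcon
  push Not at hcon
  obtain ⟨ω, hω⟩ := support hS hp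
  set β : ℝ := 84 * π * k / N with hβ
  have hβπ : β < π := by
    rw [hβ, div_lt_iff₀ hNpos]
    nlinarith [pi_pos]
  have hcos := cos_beta hN0 hβ
  have hcount := count_lower hN0 ω hβπ
  have hsub : (mu N).filter (fun q => cos β < (q * Complex.exp (-(ω : ℂ) * Complex.I)).re) ⊆ mu N \ S := by
    intro q hq
    obtain ⟨hq1, hq2⟩ := Finset.mem_filter.1 hq
    rw [Finset.mem_sdiff]
    refine ⟨hq1, fun hqS => ?_⟩
    have hne : q ≠ p := by
      rintro rfl
      exact hp1 (norm_mu hN0 hq1)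
    have h1 := hω q hqS hne
    have h2 := ht_le ω p
    have h3 : cos β < ht ω q := hq2
    have h4 : 34900 * (k : ℝ) ^ 2 / N ^ 2 ≤ 70000 * (k : ℝ) ^ 2 / N ^ 2 := by
      gcongr
      norm_num
    linarith
  have hcard : (((mu N).filter (fun q => cos β < (q * Complex.exp (-(ω : ℂ) * Complex.I)).re)).card : ℝ) ≤ 80 * k := by
    exact_mod_cast (Finset.card_le_card hsub).trans hmiss
  have h5 : (N : ℝ) * β / π = 84 * k := by
    rw [hβ]; field_simp
  rw [h5] at hcount
  have : (1 : ℝ) ≤ k := by exact_mod_cast hk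
  linarith

/-- the trigonometric core of `radial_out` -/
theorem trig_out {a b c β ω : ℝ} (hβ : β ≤ π / 2) (ha : -β < a) (hab : a < b) (hbc : b < c) (hc : c < β)
    (h1 : cos (a - ω) < cos (b - ω)) (h2 : cos (c - ω) < cos (b - ω)) : cos β < cos ω := by
  have hs1 : 0 < sin ((b - a) / 2) := sin_pos_of_pos_of_lt_pi (by linarith) (by linarith)
  have hs2 : 0 < sin ((c - b) / 2) := sin_pos_of_pos_of_lt_pi (by linarith) (by linarith)
  have e1 : 0 < sin (ω - (a + b) / 2) := by
    have h3 : cos (b - ω) - cos (a - ω) = 2 * sin (ω - (a + b) / 2) * sin ((b - a) / 2) := by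
      rw [cos_sub_cos]
      have x1 : (b - ω + (a - ω)) / 2 = -(ω - (a + b) / 2) := by ring
      have x2 : (b - ω - (a - ω)) / 2 = (b - a) / 2 := by ring
      rw [x1, x2, sin_neg]; ring
    have h4 : 0 < sin (ω - (a + b) / 2) * sin ((b - a) / 2) := by linarith
    exact (pos_iff_pos_of_mul_pos h4).2 hs1
  have e2 : sin (ω - (b + c) / 2) < 0 := by
    have h3 : cos (b - ω) - cos (c - ω) = -(2 * sin (ω - (b + c) / 2) * sin ((c - b) / 2)) := by
      rw [cos_sub_cos]
      have x1 : (b - ω + (c - ω)) / 2 = -(ω - (b + c) / 2) := by ring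
      have x2 : (b - ω - (c - ω)) / 2 = -((c - b) / 2) := by ring
      rw [x1, x2, sin_neg, sin_neg]; ring
    have h4 : 0 < (-sin (ω - (b + c) / 2)) * sin ((c - b) / 2) := by linarith
    have := (pos_iff_pos_of_mul_pos h4).2 hs2
    linarith
  set n : ℤ := ⌊(ω - (a + b) / 2) / (2 * π)⌋ with hn
  have hpi := pi_pos
  have f1 : 0 ≤ ω - (a + b) / 2 - n * (2 * π) := by
    have := Int.floor_le ((ω - (a + b) / 2) / (2 * π))
    rw [← hn, le_div_iff₀ (by positivity)] at this
    linarith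
  have f2 : ω - (a + b) / 2 - n * (2 * π) < 2 * π := by
    have := Int.lt_floor_add_one ((ω - (a + b) / 2) / (2 * π))
    rw [← hn, div_lt_iff₀ (by positivity)] at this
    linarith
  set ω' : ℝ := ω - n * (2 * π) with hω'
  have g1 : sin (ω' - (a + b) / 2) = sin (ω - (a + b) / 2) := by
    have : ω' - (a + b) / 2 = ω - (a + b) / 2 - n * (2 * π) := by rw [hω']; ring
    rw [this, sin_sub_int_mul_two_pi]
  have g2 : sin (ω' - (b + c) / 2) = sin (ω - (b + c) / 2) := by
    have : ω' - (b + c) / 2 = ω - (b + c) / 2 - n * (2 * π) := by rw [hω']; ring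
    rw [this, sin_sub_int_mul_two_pi]
  have g3 : cos ω' = cos ω := by rw [hω', cos_sub_int_mul_two_pi]
  rw [← g1] at e1
  rw [← g2] at e2
  have i1 : ω' - (a + b) / 2 < π := by
    by_contra hcon
    push Not at hcon
    have : sin (ω' - (a + b) / 2) ≤ 0 := by
      have h5 : 0 ≤ sin (ω' - (a + b) / 2 - π) := sin_nonneg_of_nonneg_of_le_pi (by linarith) (by linarith)
      rw [sin_sub_pi] at h5
      linarith
    linarith
  have i2 : (a + b) / 2 < ω' := by
    rcases (show (a + b) / 2 ≤ ω' by linarith).eq_or_lt with h | h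
    · rw [← h, sub_self, sin_zero] at e1
      exact absurd e1 (lt_irrefl _)
    · exact h
  have i3 : ω' < (b + c) / 2 := by
    by_contra hcon
    push Not at hcon
    have : 0 ≤ sin (ω' - (b + c) / 2) := sin_nonneg_of_nonneg_of_le_pi (by linarith) (by linarith)
    linarith
  rw [← g3, ← cos_abs ω']
  refine cos_lt_cos_of_nonneg_of_le_pi (abs_nonneg _) (by linarith) ?_
  rw [abs_lt]
  constructor <;> linarith

end Pool.Agent.Lib.MP_0d8f69_co
end

section

set_option autoImplicit false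

open Real

namespace Pool.Agent.Lib.MP_0d8f69_co

theorem bisector_two {S : Finset ℂ} (hS : Cvx S) {x y : ℂ} (hxy : x ≠ y) :
    (S.filter (fun z => dist z x = dist z y)).card ≤ 2 := by
  by_contra hcon
  push Not at hcon
  set T := S.filter (fun z => dist z x = dist z y) with hT
  set w : ℂ := y - x with hw
  have hw0 : w ≠ 0 := sub_ne_zero.2 (Ne.symm hxy)
  have hcw : (starRingEnd ℂ) w ≠ 0 := by simpa using hw0
  have hre : ∀ z ∈ T, (z * (starRingEnd ℂ) w).re = (‖y‖ ^ 2 - ‖x‖ ^ 2) / 2 := by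
    intro z hz
    have h1 := (Finset.mem_filter.1 hz).2
    have h2 : ‖z - x‖ ^ 2 = ‖z - y‖ ^ 2 := by rw [← dist_eq_norm, ← dist_eq_norm, h1]
    rw [Complex.sq_norm, Complex.sq_norm, Complex.normSq_apply, Complex.normSq_apply] at h2
    rw [Complex.sq_norm, Complex.sq_norm, Complex.normSq_apply, Complex.normSq_apply, hw]
    simp only [Complex.mul_re, Complex.conj_re, Complex.conj_im, Complex.sub_re, Complex.sub_im] at h2 ⊢
    linear_combination (1 / 2) * h2
  set τ : ℂ → ℝ := fun z => (z * (starRingEnd ℂ) w).im with hτ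
  have hinj : Set.InjOn τ (↑T : Set ℂ) := by
    intro a ha b hb hab
    have h1 := (hre a (Finset.mem_coe.1 ha)).trans (hre b (Finset.mem_coe.1 hb)).symm
    exact mul_right_cancel₀ hcw (Complex.ext h1 hab)
  have hTc : 3 ≤ (T.image τ).card := by rw [Finset.card_image_of_injOn hinj]; exact hcon
  have hne : (T.image τ).Nonempty := Finset.card_pos.1 (by omega)
  obtain ⟨b, hb⟩ : (((T.image τ).erase ((T.image τ).min' hne)).erase ((T.image τ).max' hne)).Nonempty := by
    refine Finset.card_pos.1 ?_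
    have h1 := Finset.card_erase_of_mem (Finset.min'_mem (T.image τ) hne)
    have h2 := Finset.pred_card_le_card_erase (a := (T.image τ).max' hne) (s := (T.image τ).erase ((T.image τ).min' hne))
    omega
  obtain ⟨hb1, hb2⟩ := Finset.mem_erase.1 hb
  obtain ⟨hb3, hbT⟩ := Finset.mem_erase.1 hb2
  have hab : (T.image τ).min' hne < b := lt_of_le_of_ne (Finset.min'_le _ b hbT) (Ne.symm hb3)
  have hbc : b < (T.image τ).max' hne := lt_of_le_of_ne (Finset.le_max' _ b hbT) hb1
  obtain ⟨z1, hz1, e1⟩ := Finset.mem_image.1 (Finset.min'_mem (T.image τ) hne)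
  obtain ⟨z2, hz2, e2⟩ := Finset.mem_image.1 hbT
  obtain ⟨z3, hz3, e3⟩ := Finset.mem_image.1 (Finset.max'_mem (T.image τ) hne)
  rw [← e1, ← e2] at hab
  rw [← e2, ← e3] at hbc
  have h13 : 0 < τ z3 - τ z1 := by linarith
  set s : ℝ := (τ z2 - τ z1) / (τ z3 - τ z1) with hs
  have hs0 : 0 ≤ s := div_nonneg (by linarith) h13.le
  have hs1 : s ≤ 1 := by rw [hs, div_le_one h13]; linarith
  have hz : z2 = (1 - s) • z1 + s • z3 := by
    refine mul_right_cancel₀ hcw ?_
    have h4 : ((1 - s) • z1 + s • z3) * (starRingEnd ℂ) w =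
        (1 - s) • (z1 * (starRingEnd ℂ) w) + s • (z3 * (starRingEnd ℂ) w) := by
      rw [add_mul, smul_mul_assoc, smul_mul_assoc]
    rw [h4]
    refine Complex.ext ?_ ?_
    · rw [Complex.add_re, Complex.smul_re, Complex.smul_re, smul_eq_mul, smul_eq_mul, hre z1 hz1, hre z2 hz2,
        hre z3 hz3]
      ring
    · rw [Complex.add_im, Complex.smul_im, Complex.smul_im, smul_eq_mul, smul_eq_mul]
      show τ z2 = (1 - s) * τ z1 + s * τ z3
      have : s * (τ z3 - τ z1) = τ z2 - τ z1 := by rw [hs]; field_simp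
      linarith
  have hz2S := (Finset.mem_filter.1 hz2).1
  refine hS z2 hz2S ?_
  have m1 : z1 ∈ (↑(S.erase z2) : Set ℂ) := Finset.mem_coe.2 (Finset.mem_erase.2
    ⟨fun h => by rw [h] at hab; exact lt_irrefl _ hab, (Finset.mem_filter.1 hz1).1⟩)
  have m3 : z3 ∈ (↑(S.erase z2) : Set ℂ) := Finset.mem_coe.2 (Finset.mem_erase.2
    ⟨fun h => by rw [h] at hbc; exact lt_irrefl _ hbc, (Finset.mem_filter.1 hz3).1⟩)
  nth_rewrite 2 [hz]
  exact (convex_convexHull ℝ _) (subset_convexHull ℝ _ m1) (subset_convexHull ℝ _ m3) (by linarith) hs0 (by ring)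

theorem cvx_subset {S B : Finset ℂ} (hS : Cvx S) (h : B ⊆ S) : Cvx B := by
  intro x hx hcon
  refine hS x (h hx) ?_
  exact convexHull_mono (Finset.coe_subset.2 (Finset.erase_subset_erase x h)) hcon

/-- `F ≤ 3 n³ / 4` for all convex polygons -/
theorem Qn_cvx {B : Finset ℂ} (hB : Cvx B) : Qn B ≤ 3 * B.card ^ 3 := by
  set Δ : Finset ℝ := B.offDiag.image (fun p => dist p.1 p.2) with hΔ
  have hmem : ∀ p ∈ B.offDiag, dist p.1 p.2 ∈ Δ := fun p hp => Finset.mem_image_of_mem _ hp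
  rw [Qn_eq B Δ hmem]
  set s : ℂ → ℝ → ℕ := fun z D => (B.filter (fun x => x ≠ z ∧ dist z x = D)).card with hs
  have hR : ∀ D, Rn B D = ∑ z ∈ B, s z D := by
    intro D
    unfold Rn
    have h1 : B.offDiag.filter (fun p : ℂ × ℂ => dist p.1 p.2 = D) =
        (B ×ˢ B).filter (fun p : ℂ × ℂ => p.2 ≠ p.1 ∧ dist p.1 p.2 = D) := by
      ext ⟨x, y⟩
      simp only [Finset.mem_filter, Finset.mem_offDiag, Finset.mem_product]
      constructor
      · rintro ⟨⟨hx, hy, hne⟩, hD⟩
        exact ⟨⟨hx, hy⟩, Ne.symm hne, hD⟩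
      · rintro ⟨⟨hx, hy⟩, hne, hD⟩
        exact ⟨⟨hx, hy, Ne.symm hne⟩, hD⟩
    rw [h1, Finset.card_filter, Finset.sum_product]
    refine Finset.sum_congr rfl fun z _ => ?_
    rw [hs]
    simp only
    rw [Finset.card_filter]
  have h1 : ∀ z ∈ B, ∑ D ∈ Δ, s z D ^ 2 ≤ ∑ x ∈ B, (B.filter (fun y => dist z y = dist z x)).card := by
    intro z _
    have e1 : ∀ D, s z D ^ 2 = ∑ x ∈ B, (if x ≠ z ∧ dist z x = D then s z D else 0) := by
      intro D
      rw [← Finset.sum_filter, Finset.sum_const, smul_eq_mul, sq]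
    rw [Finset.sum_congr rfl fun D _ => e1 D, Finset.sum_comm]
    refine Finset.sum_le_sum fun x _ => ?_
    have e2 : ∑ D ∈ Δ, (if x ≠ z ∧ dist z x = D then s z D else 0) ≤ s z (dist z x) := by
      by_cases hxz : x ≠ z
      · have e3 : ∀ D ∈ Δ, (if x ≠ z ∧ dist z x = D then s z D else 0) = (if dist z x = D then s z D else 0) := by
          intro D _
          by_cases h : dist z x = D
          · rw [if_pos ⟨hxz, h⟩, if_pos h]
          · rw [if_neg (fun h' => h h'.2), if_neg h]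
        rw [Finset.sum_congr rfl e3, Finset.sum_ite_eq]
        by_cases h : dist z x ∈ Δ
        · rw [if_pos h]
        · rw [if_neg h]; exact Nat.zero_le _
      · rw [Finset.sum_eq_zero]
        · exact Nat.zero_le _
        · intro D _
          rw [if_neg (fun h' => hxz h'.1)]
    refine e2.trans (Finset.card_le_card fun y hy => ?_)
    obtain ⟨h1, h2⟩ := Finset.mem_filter.1 hy
    exact Finset.mem_filter.2 ⟨h1, h2.2⟩
  have h2 : ∑ z ∈ B, ∑ x ∈ B, (B.filter (fun y => dist z y = dist z x)).card ≤ 3 * B.card ^ 2 := by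
    have e1 : ∑ z ∈ B, ∑ x ∈ B, (B.filter (fun y => dist z y = dist z x)).card =
        ∑ x ∈ B, ∑ y ∈ B, (B.filter (fun z => dist z y = dist z x)).card := by
      rw [Finset.sum_comm]
      refine Finset.sum_congr rfl fun x _ => ?_
      have e2 : ∀ z ∈ B, (B.filter (fun y => dist z y = dist z x)).card =
          ∑ y ∈ B, (if dist z y = dist z x then 1 else 0) := fun z _ => Finset.card_filter _ _
      rw [Finset.sum_congr rfl e2, Finset.sum_comm]
      exact Finset.sum_congr rfl fun y _ => (Finset.card_filter _ _).symm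
    rw [e1]
    have e2 : ∀ x ∈ B, ∑ y ∈ B, (B.filter (fun z => dist z y = dist z x)).card ≤ 3 * B.card := by
      intro x _
      have e3 : ∀ y ∈ B, (B.filter (fun z => dist z y = dist z x)).card ≤ 2 + (if y = x then B.card else 0) := by
        intro y _
        by_cases h : y = x
        · rw [if_pos h]
          have := Finset.card_filter_le B (fun z => dist z y = dist z x)
          omega
        · rw [if_neg h]
          exact bisector_two hB h
      refine (Finset.sum_le_sum e3).trans ?_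
      rw [Finset.sum_add_distrib, Finset.sum_const, smul_eq_mul, ← Finset.sum_filter, Finset.sum_const, smul_eq_mul]
      have e4 : (B.filter (fun y => y = x)).card ≤ 1 := by
        rw [Finset.card_le_one]
        intro a ha b hb
        rw [(Finset.mem_filter.1 ha).2, (Finset.mem_filter.1 hb).2]
      have := Nat.mul_le_mul_right B.card e4
      omega
    refine (Finset.sum_le_sum e2).trans (le_of_eq ?_)
    rw [Finset.sum_const, smul_eq_mul]; ring
  calc ∑ D ∈ Δ, Rn B D ^ 2 ≤ ∑ D ∈ Δ, B.card * ∑ z ∈ B, s z D ^ 2 := by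
        refine Finset.sum_le_sum fun D _ => ?_
        rw [hR D]
        exact sq_sum_le_card_mul_sum_sq
    _ = B.card * ∑ z ∈ B, ∑ D ∈ Δ, s z D ^ 2 := by rw [← Finset.mul_sum, Finset.sum_comm]
    _ ≤ B.card * (3 * B.card ^ 2) :=
        Nat.mul_le_mul_left _ ((Finset.sum_le_sum h1).trans h2)
    _ = 3 * B.card ^ 3 := by ring

end Pool.Agent.Lib.MP_0d8f69_co
end
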