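import Pool.Agent.Lib.MP_0d8f69_co.L10b

section

set_option autoImplicit false

namespace Pool.Agent.Lib.MP_0d8f69_co

/-- Stability of the energy inequality: `A` is almost a coset of a finite subgroup. -/
theorem stability {A : Finset ℂ} (hA : Uc A) {k : ℕ} (hk : 1 ≤ k) (hkm : 140 * k ≤ A.card)
    (hE : A.card ^ 3 ≤ En A + 8 * k * A.card ^ 2) :
    ∃ a ∈ A, ∃ N : ℕ, 0 < N ∧ A.card ≤ N + 64 * k ∧ N ≤ A.card + 16 * k ∧
      A.card ≤ (A.filter (fun z => z / a ∈ mu N)).card + 64 * k := by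
  have hm : 0 < A.card := by omega
  have hsumw := sum_wn hA
  -- the total deficit
  have hdef : ∑ g ∈ qs A, wn A g * (A.card - wn A g) ≤ 8 * k * A.card ^ 2 := by
    have h1 : ∑ g ∈ qs A, wn A g * (A.card - wn A g) + En A = A.card ^ 3 := by
      unfold En
      rw [← Finset.sum_add_distrib]
      calc ∑ g ∈ qs A, (wn A g * (A.card - wn A g) + wn A g ^ 2) = ∑ g ∈ qs A, A.card * wn A g := by
            refine Finset.sum_congr rfl fun g _ => ?_
            obtain ⟨j, hj⟩ : ∃ j, A.card = wn A g + j := ⟨A.card - wn A g, by have := wn_le A g; omega⟩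
            have : A.card - wn A g = j := by omega
            rw [this, hj]; ring
        _ = A.card ^ 3 := by rw [← Finset.mul_sum, hsumw]; ring
    omega
  set S1 := (qs A).filter (fun g => 7 * A.card < 8 * wn A g) with hS1
  set U := (qs A).filter (fun g => 3 * A.card < 8 * wn A g) with hU
  set H := (qs A).filter (fun g => A.card < 2 * wn A g) with hH
  have memS : ∀ g, g ∈ S1 ↔ 7 * A.card < 8 * wn A g := fun g => by
    rw [hS1, Finset.mem_filter]
    exact ⟨fun h => h.2, fun h => ⟨mem_qs_of_wn hA (by omega), h⟩⟩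
  have memU : ∀ g, g ∈ U ↔ 3 * A.card < 8 * wn A g := fun g => by
    rw [hU, Finset.mem_filter]
    exact ⟨fun h => h.2, fun h => ⟨mem_qs_of_wn hA (by omega), h⟩⟩
  have memH : ∀ g, g ∈ H ↔ A.card < 2 * wn A g := fun g => by
    rw [hH, Finset.mem_filter]
    exact ⟨fun h => h.2, fun h => ⟨mem_qs_of_wn hA (by omega), h⟩⟩
  have nz : ∀ g ∈ qs A, g ≠ 0 := fun g hg => ne_zero_of_norm (norm_qs hA hg)
  have hSq : S1 ⊆ qs A := Finset.filter_subset _ _
  have hUq : U ⊆ qs A := Finset.filter_subset _ _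
  have hHq : H ⊆ qs A := Finset.filter_subset _ _
  -- (1)
  have h1 : (∑ g ∈ qs A \ S1, wn A g) ≤ 64 * k * A.card := by
    have e1 : A.card * ∑ g ∈ qs A \ S1, wn A g ≤ 8 * (8 * k * A.card ^ 2) := by
      refine le_trans ?_ (Nat.mul_le_mul_left 8 hdef)
      rw [Finset.mul_sum, Finset.mul_sum]
      refine le_trans (Finset.sum_le_sum (g := fun g => 8 * (wn A g * (A.card - wn A g))) fun g hg => ?_)
        (Finset.sum_le_sum_of_subset Finset.sdiff_subset)
      rw [Finset.mem_sdiff, memS] at hg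
      obtain ⟨j, hj⟩ : ∃ j, A.card = wn A g + j := ⟨A.card - wn A g, by have := wn_le A g; omega⟩
      have e2 : A.card - wn A g = j := by omega
      rw [e2]
      have e3 : A.card ≤ 8 * j := by omega
      calc A.card * wn A g ≤ 8 * j * wn A g := Nat.mul_le_mul_right _ e3
        _ = 8 * (wn A g * j) := by ring
    have e4 : A.card * ∑ g ∈ qs A \ S1, wn A g ≤ A.card * (64 * k * A.card) := by
      calc _ ≤ _ := e1
        _ = _ := by ring
    exact Nat.le_of_mul_le_mul_left e4 hm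
  -- (2)
  have h2 : A.card ≤ S1.card + 64 * k := by
    have e1 : ∑ g ∈ qs A \ S1, wn A g + ∑ g ∈ S1, wn A g = A.card ^ 2 := by
      rw [Finset.sum_sdiff hSq, hsumw]
    have e2 : ∑ g ∈ S1, wn A g ≤ S1.card * A.card := by
      refine (Finset.sum_le_sum fun g _ => wn_le A g).trans ?_
      rw [Finset.sum_const, smul_eq_mul]
    have e3 : A.card * A.card ≤ (S1.card + 64 * k) * A.card := by nlinarith
    exact Nat.le_of_mul_le_mul_right e3 hm
  -- (3)
  have h3 : (U \ S1).card < 74 * k := by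
    have e1 : (U \ S1).card * (7 * A.card ^ 2) ≤ 64 * (8 * k * A.card ^ 2) := by
      refine le_trans ?_ (Nat.mul_le_mul_left 64 hdef)
      rw [← smul_eq_mul, ← Finset.sum_const, Finset.mul_sum]
      refine le_trans (Finset.sum_le_sum (g := fun g => 64 * (wn A g * (A.card - wn A g))) fun g hg => ?_)
        (Finset.sum_le_sum_of_subset (Finset.sdiff_subset.trans hUq))
      rw [Finset.mem_sdiff, memS, memU] at hg
      obtain ⟨j, hj⟩ : ∃ j, A.card = wn A g + j := ⟨A.card - wn A g, by have := wn_le A g; omega⟩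
      have e2 : A.card - wn A g = j := by omega
      rw [e2]
      rw [hj] at hg ⊢
      obtain ⟨e3, e4⟩ := hg
      have e5 : wn A g ≤ 7 * j := by omega
      have e6 : j ≤ 7 * wn A g := by omega
      nlinarith
    have e2 : (U \ S1).card * 7 ≤ 512 * k := by
      have hm2 : 0 < A.card ^ 2 := by positivity
      refine Nat.le_of_mul_le_mul_right (c := A.card ^ 2) ?_ hm2
      calc (U \ S1).card * 7 * A.card ^ 2 = (U \ S1).card * (7 * A.card ^ 2) := by ring
        _ ≤ _ := e1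
        _ = _ := by ring
    omega
  have hinvw : ∀ g ∈ qs A, wn A g⁻¹ = wn A g := fun g hg => wn_inv A (nz g hg)
  -- (4)
  have h4 : ∀ θ ∈ H, 3 * A.card < 4 * wn A θ := by
    intro θ hθ
    have hθ0 := nz θ (hHq hθ)
    have hθw := (memH θ).1 hθ
    have hinU : ∀ s ∈ S1, s * θ ∈ U := fun s hs => by
      have e1 := wn_div A (g := s) (h := θ⁻¹) (inv_ne_zero hθ0)
      rw [div_inv_eq_mul, hinvw θ (hHq hθ)] at e1
      have e2 := (memS s).1 hs
      rw [memU]
      omega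
    have hex : ∃ s ∈ S1, s * θ ∈ S1 := by
      by_contra hcon
      push Not at hcon
      have e1 : (S1.image (fun s => s * θ)).card = S1.card :=
        Finset.card_image_of_injective _ (mul_left_injective₀ hθ0)
      have e2 : S1.image (fun s => s * θ) ⊆ U \ S1 := by
        intro y hy
        obtain ⟨s, hs, rfl⟩ := Finset.mem_image.1 hy
        exact Finset.mem_sdiff.2 ⟨hinU s hs, hcon s hs⟩
      have e3 := Finset.card_le_card e2
      rw [e1] at e3
      omega
    obtain ⟨s, hs, hsθ⟩ := hex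
    have hs0 := nz s (hSq hs)
    have e1 := wn_div A (g := s * θ) (h := s) hs0
    rw [mul_div_cancel_left₀ _ hs0] at e1
    have e2 := (memS s).1 hs
    have e3 := (memS _).1 hsθ
    omega
  have hH1 : (1 : ℂ) ∈ H := (memH 1).2 (by rw [wn_one]; omega)
  have hH0 : (0 : ℂ) ∉ H := fun h => nz 0 (hHq h) rfl
  have hdiv : ∀ g ∈ H, ∀ h ∈ H, g / h ∈ H := fun g hg h hh => by
    have e1 := wn_div A (g := g) (h := h) (nz h (hHq hh))
    have e2 := h4 g hg
    have e3 := h4 h hh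
    rw [memH]
    omega
  have hHmu := finset_subgroup ⟨1, hH1⟩ hH0 hdiv
  have hSH : S1 ⊆ H := fun g hg => by
    have := (memS g).1 hg
    rw [memH]; omega
  have hSHc := Finset.card_le_card hSH
  -- (7)
  have h7 : H.card ≤ A.card + 16 * k := by
    have e1 : A.card * ∑ g ∈ H, (A.card - wn A g) ≤ 2 * (8 * k * A.card ^ 2) := by
      refine le_trans ?_ (Nat.mul_le_mul_left 2 hdef)
      rw [Finset.mul_sum, Finset.mul_sum]
      refine le_trans (Finset.sum_le_sum (g := fun g => 2 * (wn A g * (A.card - wn A g))) fun g hg => ?_)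
        (Finset.sum_le_sum_of_subset hHq)
      have e2 := (memH g).1 hg
      calc A.card * (A.card - wn A g) ≤ 2 * wn A g * (A.card - wn A g) := Nat.mul_le_mul_right _ (by omega)
        _ = _ := by ring
    have e2 : ∑ g ∈ H, (A.card - wn A g) ≤ 16 * k * A.card := by
      refine Nat.le_of_mul_le_mul_left ?_ hm
      calc _ ≤ _ := e1
        _ = _ := by ring
    have e3 : H.card * A.card = ∑ g ∈ H, (A.card - wn A g) + ∑ g ∈ H, wn A g := by
      rw [← Finset.sum_add_distrib, ← smul_eq_mul, ← Finset.sum_const]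
      refine Finset.sum_congr rfl fun g _ => ?_
      have := wn_le A g
      omega
    have e4 : ∑ g ∈ H, wn A g ≤ A.card ^ 2 := by
      rw [← hsumw]
      exact Finset.sum_le_sum_of_subset hHq
    have e5 : H.card * A.card ≤ (A.card + 16 * k) * A.card := by nlinarith
    exact Nat.le_of_mul_le_mul_right e5 hm
  -- (8)
  have h8 : A.card ^ 2 ≤ ∑ g ∈ H, wn A g + 64 * k * A.card := by
    have e1 : ∑ g ∈ qs A \ S1, wn A g + ∑ g ∈ S1, wn A g = A.card ^ 2 := by
      rw [Finset.sum_sdiff hSq, hsumw]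
    have e2 : ∑ g ∈ S1, wn A g ≤ ∑ g ∈ H, wn A g := Finset.sum_le_sum_of_subset hSH
    omega
  have h9 : ∑ g ∈ H, wn A g = ∑ y ∈ A, (A.filter (fun x => x / y ∈ H)).card := by
    have e1 := sum_pairs_div hA (fun g => if g ∈ H then 1 else 0)
    have e2 : ∑ g ∈ qs A, wn A g * (if g ∈ H then 1 else 0) = ∑ g ∈ H, wn A g := by
      rw [← Finset.sum_filter_add_sum_filter_not (qs A) (fun g => g ∈ H)]
      rw [Finset.sum_eq_zero (s := (qs A).filter (fun g => ¬ g ∈ H)), add_zero]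
      · rw [Finset.filter_mem_eq_inter, Finset.inter_eq_right.2 hHq]
        exact Finset.sum_congr rfl fun g hg => by rw [if_pos hg, mul_one]
      · intro g hg
        rw [if_neg (Finset.mem_filter.1 hg).2, mul_zero]
    rw [← e2, ← e1, Finset.sum_product_right]
    refine Finset.sum_congr rfl fun y _ => ?_
    rw [Finset.card_filter]
  have hex : ∃ a ∈ A, A.card ≤ (A.filter (fun x => x / a ∈ H)).card + 64 * k := by
    by_contra hcon
    push Not at hcon
    have hne : A.Nonempty := Finset.card_pos.1 hm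
    have e1 : ∑ y ∈ A, ((A.filter (fun x => x / y ∈ H)).card + 64 * k) < ∑ _y ∈ A, A.card :=
      Finset.sum_lt_sum_of_nonempty hne fun y hy => hcon y hy
    rw [Finset.sum_add_distrib, ← h9, Finset.sum_const, Finset.sum_const, smul_eq_mul, smul_eq_mul] at e1
    nlinarith
  obtain ⟨a, ha, hc⟩ := hex
  refine ⟨a, ha, H.card, Finset.card_pos.2 ⟨1, hH1⟩, by omega, h7, ?_⟩
  rw [← hHmu]
  exact hc

end Pool.Agent.Lib.MP_0d8f69_co
end

section

set_option autoImplicit false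

open Real

namespace Pool.Agent.Lib.MP_0d8f69_co

theorem ht_exp (ω θ r : ℝ) : ht ω ((r : ℂ) * Complex.exp ((θ : ℂ) * Complex.I)) = r * cos (θ - ω) := by
  unfold ht
  rw [mul_assoc, ← Complex.exp_add]
  have : (θ : ℂ) * Complex.I + -(ω : ℂ) * Complex.I = ((θ - ω : ℝ) : ℂ) * Complex.I := by push_cast; ring
  rw [this, Complex.re_ofReal_mul, Complex.exp_ofReal_mul_I_re]

theorem radial_out {S : Finset ℂ} (hS : Cvx S) {k N : ℕ} (hk : 1 ≤ k) (hN : 1000 * k ≤ N)
    (hmiss : (mu N \ S).card ≤ 80 * k) {p : ℂ} (hp : p ∈ S) (hp1 : ‖p‖ ≠ 1) :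
    ‖p‖ ≤ 1 + 70000 * (k : ℝ) ^ 2 / N ^ 2 := by
  have hN0 : 0 < N := by omega
  have hNpos : (0 : ℝ) < N := by exact_mod_cast hN0
  have hkpos : (0 : ℝ) < k := by exact_mod_cast hk
  have hNk : 1000 * (k : ℝ) ≤ N := by exact_mod_cast hN
  have hpi := pi_pos
  by_contra hcon
  push Not at hcon
  set β : ℝ := 84 * π * k / N with hβ
  have hβ2 : β ≤ π / 2 := by
    rw [hβ, div_le_iff₀ hNpos]
    nlinarith
  have hβπ : β < π := by linarith
  have hβ0 : 0 < β := by rw [hβ]; positivity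
  have hcos := cos_beta hN0 hβ
  have hcount := count_lower hN0 p.arg hβπ
  have h5 : (N : ℝ) * β / π = 84 * k := by
    rw [hβ]; field_simp
  rw [h5] at hcount
  set V := (mu N).filter (fun q => cos β < (q * Complex.exp (-(p.arg : ℂ) * Complex.I)).re) with hV
  have hVc : 84 * k ≤ V.card + 1 := by
    have : (84 * k : ℝ) ≤ V.card + 1 := by linarith
    exact_mod_cast this
  have hVS : 3 ≤ (V ∩ S).card := by
    have h1 := Finset.card_sdiff_add_card_inter V S
    have h2 : (V \ S).card ≤ (mu N \ S).card :=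
      Finset.card_le_card (Finset.sdiff_subset_sdiff (Finset.filter_subset _ _) (le_refl S))
    omega
  -- the angle relative to `arg p`
  set ψ : ℂ → ℝ := fun q => (q * Complex.exp (-(p.arg : ℂ) * Complex.I)).arg with hψ
  have hnorm : ∀ q ∈ V ∩ S, ‖q * Complex.exp (-(p.arg : ℂ) * Complex.I)‖ = 1 := by
    intro q hq
    have h1 := norm_mu hN0 (Finset.mem_filter.1 (Finset.mem_inter.1 hq).1).1
    have h2 : ‖Complex.exp (-(p.arg : ℂ) * Complex.I)‖ = 1 := by
      have h : -(p.arg : ℂ) * Complex.I = ((-p.arg : ℝ) : ℂ) * Complex.I := by push_cast; ring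
      rw [h, Complex.norm_exp_ofReal_mul_I]
    rw [norm_mul, h1, h2, one_mul]
  have hrep : ∀ q ∈ V ∩ S, q = ((1 : ℝ) : ℂ) * Complex.exp (((p.arg + ψ q : ℝ) : ℂ) * Complex.I) := by
    intro q hq
    have h1 := Complex.norm_mul_exp_arg_mul_I (q * Complex.exp (-(p.arg : ℂ) * Complex.I))
    rw [hnorm q hq] at h1
    have h2 : (((p.arg + ψ q : ℝ) : ℂ) * Complex.I) = (p.arg : ℂ) * Complex.I + (ψ q : ℂ) * Complex.I := by
      push_cast; ring
    rw [h2, Complex.exp_add]
    have h3 : Complex.exp ((ψ q : ℂ) * Complex.I) = q * Complex.exp (-(p.arg : ℂ) * Complex.I) := by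
      rw [← h1]; push_cast; rw [one_mul]
    rw [h3]
    have h4 : Complex.exp ((p.arg : ℂ) * Complex.I) * Complex.exp (-(p.arg : ℂ) * Complex.I) = 1 := by
      rw [← Complex.exp_add]
      have : (p.arg : ℂ) * Complex.I + -(p.arg : ℂ) * Complex.I = 0 := by ring
      rw [this, Complex.exp_zero]
    push_cast
    linear_combination (-q) * h4
  have hψβ : ∀ q ∈ V ∩ S, |ψ q| < β := by
    intro q hq
    have h1 := (Finset.mem_filter.1 (Finset.mem_inter.1 hq).1).2
    have h2 : (q * Complex.exp (-(p.arg : ℂ) * Complex.I)).re = cos (ψ q) := by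
      have := Complex.norm_mul_cos_arg (q * Complex.exp (-(p.arg : ℂ) * Complex.I))
      rw [hnorm q hq, one_mul] at this
      exact this.symm
    rw [h2] at h1
    by_contra h3
    push Not at h3
    have h4 : cos |ψ q| ≤ cos β := cos_le_cos_of_nonneg_of_le_pi hβ0.le (Complex.abs_arg_le_pi _) h3
    rw [cos_abs] at h4
    linarith
  have hinj : Set.InjOn ψ (↑(V ∩ S) : Set ℂ) := by
    intro q hq r hr h
    rw [hrep q hq, hrep r hr, h]
  set T := (V ∩ S).image ψ with hT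
  have hTc : 3 ≤ T.card := by rw [hT, Finset.card_image_of_injOn hinj]; exact hVS
  have hTne : T.Nonempty := Finset.card_pos.1 (by omega)
  obtain ⟨b, hb⟩ : ((T.erase (T.min' hTne)).erase (T.max' hTne)).Nonempty := by
    refine Finset.card_pos.1 ?_
    have h1 := Finset.card_erase_of_mem (Finset.min'_mem T hTne)
    have h2 := Finset.pred_card_le_card_erase (a := T.max' hTne) (s := T.erase (T.min' hTne))
    omega
  obtain ⟨hb1, hb2⟩ := Finset.mem_erase.1 hb
  obtain ⟨hb3, hbT⟩ := Finset.mem_erase.1 hb2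
  have hab : T.min' hTne < b := lt_of_le_of_ne (Finset.min'_le T b hbT) (Ne.symm hb3)
  have hbc : b < T.max' hTne := lt_of_le_of_ne (Finset.le_max' T b hbT) hb1
  obtain ⟨qa, hqa, hqa2⟩ := Finset.mem_image.1 (Finset.min'_mem T hTne)
  obtain ⟨qb, hqb, hqb2⟩ := Finset.mem_image.1 hbT
  obtain ⟨qc, hqc, hqc2⟩ := Finset.mem_image.1 (Finset.max'_mem T hTne)
  rw [← hqa2, ← hqb2] at hab
  rw [← hqb2, ← hqc2] at hbc
  have hqbS := (Finset.mem_inter.1 hqb).2
  obtain ⟨ω, hω⟩ := support hS hqbS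
  have hta : ht ω qa = cos (ψ qa - (ω - p.arg)) := by
    conv_lhs => rw [hrep qa hqa]
    rw [ht_exp, one_mul]; congr 1; ring
  have htb : ht ω qb = cos (ψ qb - (ω - p.arg)) := by
    conv_lhs => rw [hrep qb hqb]
    rw [ht_exp, one_mul]; congr 1; ring
  have htc : ht ω qc = cos (ψ qc - (ω - p.arg)) := by
    conv_lhs => rw [hrep qc hqc]
    rw [ht_exp, one_mul]; congr 1; ring
  have h1 := hω qa (Finset.mem_inter.1 hqa).2 (fun h => by rw [h] at hab; exact lt_irrefl _ hab)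
  have h2 := hω qc (Finset.mem_inter.1 hqc).2 (fun h => by rw [h] at hbc; exact lt_irrefl _ hbc)
  have hqbn : ‖qb‖ = 1 := norm_mu hN0 (Finset.mem_filter.1 (Finset.mem_inter.1 hqb).1).1
  have h3 := hω p hp (fun h => hp1 (by rw [h, hqbn]))
  have h4 : ht ω qb ≤ 1 := by rw [← hqbn]; exact ht_le ω qb
  rw [hta, htb] at h1
  rw [htc, htb] at h2
  have h6 := trig_out hβ2 (abs_lt.1 (hψβ qa hqa)).1 hab hbc (abs_lt.1 (hψβ qc hqc)).2 h1 h2
  have h7 : ht ω p = ‖p‖ * cos (ω - p.arg) := by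
    have e1 : p = ((‖p‖ : ℝ) : ℂ) * Complex.exp ((p.arg : ℂ) * Complex.I) :=
      (Complex.norm_mul_exp_arg_mul_I p).symm
    conv_lhs => rw [e1]
    rw [ht_exp, ← cos_neg]; congr 2; ring
  have ht0 : 0 ≤ (k : ℝ) ^ 2 / N ^ 2 := by positivity
  have ht1 : (k : ℝ) ^ 2 / N ^ 2 ≤ 1 / 1000000 := by
    rw [div_le_iff₀ (by positivity)]
    nlinarith
  have e1 : 70000 * (k : ℝ) ^ 2 / N ^ 2 = 70000 * ((k : ℝ) ^ 2 / N ^ 2) := by ring
  have e2 : 34900 * (k : ℝ) ^ 2 / N ^ 2 = 34900 * ((k : ℝ) ^ 2 / N ^ 2) := by ring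
  rw [e1] at hcon
  rw [e2] at hcos
  set t : ℝ := (k : ℝ) ^ 2 / N ^ 2
  have hc0 : 0 < cos β := by linarith
  have h8 : 1 ≤ ‖p‖ * cos (ω - p.arg) := by
    have h9 : ‖p‖ * cos β ≤ ‖p‖ * cos (ω - p.arg) := mul_le_mul_of_nonneg_left h6.le (norm_nonneg _)
    have h10 : (1 + 70000 * t) * (1 - 34900 * t) ≤ ‖p‖ * cos β :=
      mul_le_mul hcon.le hcos (by linarith) (norm_nonneg _)
    nlinarith
  rw [h7] at h3
  linarith

end Pool.Agent.Lib.MP_0d8f69_co
end

section

set_option autoImplicit false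

open Real

namespace Pool.Agent.Lib.MP_0d8f69_co

/-- `1 - |p - e^{i (φ + x)}|² / 2` for `|p| = ρ`, `arg p = φ` -/
noncomputable def vv (ρ x : ℝ) : ℝ := (1 - ρ ^ 2) / 2 + ρ * cos x

/-- the exceptional value of `cos X` -/
noncomputable def kap (N : ℕ) (ρ : ℝ) : ℝ := (4 * cos (π / N) ^ 2 - (1 - ρ ^ 2)) / (4 * ρ * cos (π / N))

theorem vv_near {N : ℕ} {k : ℕ} (hk : 1 ≤ k) (hN : 1000 * k ≤ N) {ρ X t : ℝ}
    (hρ : |ρ - 1| ≤ 70000 * (k : ℝ) ^ 2 / N ^ 2) (hs : 900 * (k : ℝ) / N ≤ |sin X|) (ht : |t| ≤ π / N)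
    (hv : |vv ρ (X + t)| ≤ 1) : 0.49 * |sin X| ^ 2 ≤ 1 - vv ρ (X + t) ^ 2 := by
  have hN0 : 0 < N := by omega
  have hNpos : (0 : ℝ) < N := by exact_mod_cast hN0
  have hk1 : (1 : ℝ) ≤ k := by exact_mod_cast hk
  have hNk : 1000 * (k : ℝ) ≤ N := by exact_mod_cast hN
  set s : ℝ := |sin X| with hsd
  have hs0 : 0 ≤ s := abs_nonneg _
  have hpi : π < 3.1416 := pi_lt_d4
  have hpi0 := pi_pos
  -- `|ρ - 1|` against `s ^ 2`
  have e1 : |ρ - 1| ≤ 0.0865 * s ^ 2 := by
    refine hρ.trans ?_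
    have h1 : (900 * (k : ℝ) / N) ^ 2 ≤ s ^ 2 := pow_le_pow_left₀ (by positivity) hs 2
    have h2 : (900 * (k : ℝ) / N) ^ 2 = 810000 * ((k : ℝ) ^ 2 / N ^ 2) := by ring
    have h3 : 70000 * (k : ℝ) ^ 2 / N ^ 2 = 70000 * ((k : ℝ) ^ 2 / N ^ 2) := by ring
    rw [h2] at h1
    rw [h3]
    have h4 : 0 ≤ (k : ℝ) ^ 2 / N ^ 2 := by positivity
    linarith
  have e2 : |ρ - 1| ≤ 0.07 := by
    refine hρ.trans ?_
    rw [div_le_iff₀ (by positivity)]
    nlinarith
  have e3 : |t| ≤ 0.0035 * s := by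
    refine ht.trans ?_
    have h1 : π / N ≤ 0.0035 * (900 * (k : ℝ) / N) := by
      rw [div_le_iff₀ hNpos]
      have : 0.0035 * (900 * (k : ℝ) / N) * N = 3.15 * k := by field_simp; ring
      rw [this]
      nlinarith
    exact h1.trans (by linarith)
  have hsle : s ≤ 1 := abs_sin_le_one X
  have e4 : |cos (X + t) - cos X| ≤ 0.0036 * s ^ 2 := by
    rw [cos_add]
    have h1 : cos X * cos t - sin X * sin t - cos X = -(cos X * (1 - cos t)) - sin X * sin t := by ring
    rw [h1]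
    have h2 : |-(cos X * (1 - cos t)) - sin X * sin t| ≤ |cos X| * |1 - cos t| + s * |sin t| := by
      refine (abs_sub _ _).trans ?_
      rw [abs_neg, abs_mul, abs_mul]
    have h3 : |1 - cos t| ≤ |t| ^ 2 / 2 := by
      rw [abs_of_nonneg (by linarith [cos_le_one t]), sq_abs]
      linarith [one_sub_sq_div_two_le_cos (x := t)]
    have h4 : |sin t| ≤ |t| := abs_sin_le_abs
    have h5 : |cos X| ≤ 1 := abs_cos_le_one X
    have h6 : |cos X| * |1 - cos t| ≤ 1 * (|t| ^ 2 / 2) :=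
      mul_le_mul h5 h3 (abs_nonneg _) zero_le_one
    have h7 : s * |sin t| ≤ s * (0.0035 * s) := mul_le_mul_of_nonneg_left (h4.trans e3) hs0
    have h8 : |t| ^ 2 ≤ (0.0035 * s) ^ 2 := pow_le_pow_left₀ (abs_nonneg _) e3 2
    nlinarith [sq_nonneg s]
  have e5 : |vv ρ (X + t) - cos (X + t)| ≤ 2.04 * |ρ - 1| := by
    have h1 : vv ρ (X + t) - cos (X + t) = (ρ - 1) * (cos (X + t) - (1 + ρ) / 2) := by
      unfold vv; ring
    rw [h1, abs_mul, mul_comm]
    refine mul_le_mul_of_nonneg_right ?_ (abs_nonneg _)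
    rw [abs_le] at e2 ⊢
    have h2 := neg_one_le_cos (X + t)
    have h3 := cos_le_one (X + t)
    constructor <;> linarith [e2.1, e2.2]
  have e6 : |vv ρ (X + t) - cos X| ≤ 0.181 * s ^ 2 := by
    have h1 : vv ρ (X + t) - cos X = (vv ρ (X + t) - cos (X + t)) + (cos (X + t) - cos X) := by ring
    rw [h1]
    refine (abs_add_le _ _).trans ?_
    nlinarith
  have e7 : |vv ρ (X + t) + cos X| ≤ 2 := by
    refine (abs_add_le _ _).trans ?_
    have := abs_cos_le_one X
    linarith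
  have e8 : |vv ρ (X + t) ^ 2 - cos X ^ 2| ≤ 0.362 * s ^ 2 := by
    have h1 : vv ρ (X + t) ^ 2 - cos X ^ 2 = (vv ρ (X + t) - cos X) * (vv ρ (X + t) + cos X) := by ring
    rw [h1, abs_mul]
    calc |vv ρ (X + t) - cos X| * |vv ρ (X + t) + cos X| ≤ (0.181 * s ^ 2) * 2 :=
          mul_le_mul e6 e7 (abs_nonneg _) (by positivity)
      _ = 0.362 * s ^ 2 := by ring
  have e9 : cos X ^ 2 = 1 - s ^ 2 := by
    rw [hsd, sq_abs]; linarith [sin_sq_add_cos_sq X]
  have e10 := (abs_le.1 e8).2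
  nlinarith [sq_nonneg s]

/-- the edge lemma -/
theorem edge {N : ℕ} {k : ℕ} (hk : 1 ≤ k) (hN : 1000 * k ≤ N) {ρ X : ℝ} (hρ0 : 0 < ρ) (hρ1 : ρ ≠ 1)
    (hρ : |ρ - 1| ≤ 70000 * (k : ℝ) ^ 2 / N ^ 2) {a b : ℕ} (ha : 2 * a ≤ N) (hb : 2 * b ≤ N)
    (h1 : cos (2 * π * a / N) = vv ρ (X - π / N)) (h2 : cos (2 * π * b / N) = vv ρ (X + π / N)) :
    cos X = kap N ρ ∨ |sin X| < 900 * (k : ℝ) / N := by
  have hN0 : 0 < N := by omega
  have hNpos : (0 : ℝ) < N := by exact_mod_cast hN0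
  have hk1 : (1 : ℝ) ≤ k := by exact_mod_cast hk
  have hNk : 1000 * (k : ℝ) ≤ N := by exact_mod_cast hN
  have hpi := pi_pos
  have hpi2 : π < 3.1416 := pi_lt_d4
  by_contra hcon
  push Not at hcon
  obtain ⟨hκ, hs⟩ := hcon
  have hs0 : 0 < |sin X| := lt_of_lt_of_le (by positivity) hs
  set g : ℝ := π / N with hg
  have hg0 : 0 < g := by positivity
  have hgs : g ≤ 0.0032 := by
    rw [hg, div_le_iff₀ hNpos]
    nlinarith
  set C : ℝ := cos g with hC
  have hC1 : 0.99 ≤ C := by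
    have := one_sub_sq_div_two_le_cos (x := g)
    rw [← hC] at this
    nlinarith
  have hsg : 0 < sin g := sin_pos_of_pos_of_lt_pi hg0 (by linarith [pi_gt_three])
  have hA : 2 * π * a / N = 2 * g * a := by rw [hg]; ring
  have hB : 2 * π * b / N = 2 * g * b := by rw [hg]; ring
  rw [hA] at h1
  rw [hB] at h2
  set Y : ℝ := g * (a + b) with hY
  set σ : ℝ := g * (b - a) with hσ
  have ea : 2 * g * a = Y - σ := by rw [hY, hσ]; ring
  have eb : 2 * g * b = Y + σ := by rw [hY, hσ]; ring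
  -- (E1), (E2)
  have E1 : sin Y * sin σ = ρ * sin X * sin g := by
    have e1 : cos (2 * g * a) - cos (2 * g * b) = 2 * (sin Y * sin σ) := by
      rw [ea, eb, cos_sub, cos_add]; ring
    rw [h1, h2] at e1
    unfold vv at e1
    rw [cos_sub, cos_add] at e1
    linarith
  have E2 : 2 * (cos Y * cos σ) = (1 - ρ ^ 2) + 2 * (ρ * cos X * C) := by
    have e1 : cos (2 * g * a) + cos (2 * g * b) = 2 * (cos Y * cos σ) := by
      rw [ea, eb, cos_sub, cos_add]; ring
    rw [h1, h2] at e1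
    unfold vv at e1
    rw [cos_sub, cos_add] at e1
    linarith
  have hbound : |(b : ℝ) - a| ≤ N / 2 := by
    have h3 : 2 * (a : ℝ) ≤ N := by exact_mod_cast ha
    have h4 : 2 * (b : ℝ) ≤ N := by exact_mod_cast hb
    have h5 : (0 : ℝ) ≤ a := Nat.cast_nonneg _
    have h6 : (0 : ℝ) ≤ b := Nat.cast_nonneg _
    rw [abs_le]
    constructor <;> linarith
  have hσabs : |σ| = g * |(b : ℝ) - a| := by rw [hσ, abs_mul, abs_of_pos hg0]
  have hσle : |σ| ≤ π / 2 := by
    rw [hσabs]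
    calc g * |(b : ℝ) - a| ≤ g * (N / 2) := mul_le_mul_of_nonneg_left hbound hg0.le
      _ = π / 2 := by rw [hg]; field_simp
  have hρle : ρ ≤ 1.07 := by
    have e2 : |ρ - 1| ≤ 0.07 := by
      refine hρ.trans ?_
      rw [div_le_iff₀ (by positivity)]
      nlinarith
    linarith [(abs_le.1 e2).2]
  have hcases : (b : ℤ) - a = 0 ∨ |(b : ℤ) - a| = 1 ∨ 2 ≤ |(b : ℤ) - a| := by
    rcases lt_trichotomy |(b : ℤ) - a| 1 with h | h | h
    · left; exact Int.abs_lt_one_iff.1 h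
    · right; left; exact h
    · right; right; omega
  rcases hcases with h | h | h
  · -- δ = 0
    have h3 : (b : ℝ) - a = 0 := by exact_mod_cast h
    rw [hσ, h3, mul_zero, sin_zero, mul_zero] at E1
    have h4 : sin X = 0 := by
      by_contra h5
      exact (mul_ne_zero (mul_ne_zero hρ0.ne' h5) hsg.ne') E1.symm
    rw [h4, abs_zero] at hs0
    exact lt_irrefl _ hs0
  · -- |δ| = 1
    have h3 : |(b : ℝ) - a| = 1 := by exact_mod_cast h
    have hσg : |σ| = g := by rw [hσabs, h3, mul_one]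
    have hcosσ : cos σ = C := by rw [← cos_abs, hσg]
    have hsinσ : sin σ ^ 2 = sin g ^ 2 := by
      have e1 := sin_sq_add_cos_sq σ
      have e2 := sin_sq_add_cos_sq g
      rw [hcosσ] at e1
      rw [← hC] at e2
      linarith
    have e3 : sin Y ^ 2 = ρ ^ 2 * sin X ^ 2 := by
      have e4 : (sin Y * sin σ) ^ 2 = (ρ * sin X * sin g) ^ 2 := by rw [E1]
      rw [mul_pow, hsinσ] at e4
      have e5 : sin g ^ 2 ≠ 0 := pow_ne_zero 2 hsg.ne'
      have e6 : (sin Y ^ 2 - ρ ^ 2 * sin X ^ 2) * sin g ^ 2 = 0 := by linear_combination e4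
      rcases mul_eq_zero.1 e6 with e7 | e7
      · linarith
      · exact absurd e7 e5
    rw [hcosσ] at E2
    have e4 : (1 - ρ ^ 2) * (4 * C ^ 2 - (1 - ρ ^ 2) - 4 * ρ * C * cos X) = 0 := by
      have e5 := sin_sq_add_cos_sq Y
      have e6 := sin_sq_add_cos_sq X
      have e7 : (2 * (cos Y * C)) ^ 2 = ((1 - ρ ^ 2) + 2 * (ρ * cos X * C)) ^ 2 := by rw [E2]
      have e8 : sin X ^ 2 = 1 - cos X ^ 2 := by linarith
      rw [e8] at e3
      have e9 : cos Y ^ 2 = 1 - ρ ^ 2 * (1 - cos X ^ 2) := by linarith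
      have e10 : 4 * C ^ 2 * cos Y ^ 2 = ((1 - ρ ^ 2) + 2 * (ρ * cos X * C)) ^ 2 := by
        rw [← e7]; ring
      rw [e9] at e10
      linear_combination e10
    have h1ρ : 1 - ρ ^ 2 ≠ 0 := by
      intro h0
      have : (1 - ρ) * (1 + ρ) = 0 := by linear_combination h0
      rcases mul_eq_zero.1 this with h5 | h5
      · exact hρ1 (by linarith)
      · linarith
    have e5 : 4 * C ^ 2 - (1 - ρ ^ 2) - 4 * ρ * C * cos X = 0 := by
      rcases mul_eq_zero.1 e4 with h5 | h5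
      · exact absurd h5 h1ρ
      · exact h5
    apply hκ
    unfold kap
    rw [eq_div_iff (by positivity)]
    rw [← hg, ← hC]
    linarith
  · -- |δ| ≥ 2
    have h3 : (2 : ℝ) ≤ |(b : ℝ) - a| := by exact_mod_cast h
    have hσge : 2 * g ≤ |σ| := by
      rw [hσabs]
      nlinarith
    have hsinσ : 2 * sin g * C ≤ |sin σ| := by
      have e1 : sin (2 * g) ≤ sin |σ| :=
        sin_le_sin_of_le_of_le_pi_div_two (by linarith) hσle hσge
      rw [sin_two_mul] at e1
      have e2 : |sin σ| = sin |σ| := by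
        rcases abs_cases σ with ⟨h5, h6⟩ | ⟨h5, h6⟩
        · rw [h5]
          exact abs_of_nonneg (sin_nonneg_of_nonneg_of_le_pi h6 (by linarith [le_abs_self σ]))
        · rw [h5, sin_neg]
          refine abs_of_nonpos ?_
          exact sin_nonpos_of_nonpos_of_neg_pi_le h6.le (by linarith [neg_abs_le σ])
      rw [e2]
      exact e1
    have hY2 : 2 * C * |sin Y| ≤ ρ * |sin X| := by
      have e1 : |sin Y| * |sin σ| = ρ * |sin X| * sin g := by
        rw [← abs_mul, E1, abs_mul, abs_mul, abs_of_pos hρ0, abs_of_pos hsg]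
      have e2 : |sin Y| * (2 * sin g * C) ≤ ρ * |sin X| * sin g := by
        rw [← e1]
        exact mul_le_mul_of_nonneg_left hsinσ (abs_nonneg _)
      have e3 : (2 * C * |sin Y|) * sin g ≤ (ρ * |sin X|) * sin g := by linarith
      exact le_of_mul_le_mul_right e3 hsg
    have hsum : sin (2 * g * a) + sin (2 * g * b) ≤ 2 * |sin Y| := by
      have e1 : sin (2 * g * a) + sin (2 * g * b) = 2 * sin Y * cos σ := by
        rw [ea, eb, sin_sub, sin_add]; ring
      rw [e1]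
      calc 2 * sin Y * cos σ ≤ |2 * sin Y * cos σ| := le_abs_self _
        _ = 2 * |sin Y| * |cos σ| := by rw [abs_mul, abs_mul, abs_of_pos (by norm_num : (0 : ℝ) < 2)]
        _ ≤ 2 * |sin Y| * 1 := mul_le_mul_of_nonneg_left (abs_cos_le_one σ) (by positivity)
        _ = 2 * |sin Y| := mul_one _
    have hangle : ∀ c : ℕ, 2 * c ≤ N → 0 ≤ sin (2 * g * c) := fun c hc => by
      have h5 : 2 * (c : ℝ) ≤ N := by exact_mod_cast hc
      refine sin_nonneg_of_nonneg_of_le_pi (by positivity) ?_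
      calc 2 * g * c = g * (2 * c) := by ring
        _ ≤ g * N := mul_le_mul_of_nonneg_left h5 hg0.le
        _ = π := by rw [hg]; field_simp
    have hlow : ∀ c : ℕ, 2 * c ≤ N → ∀ t : ℝ, |t| ≤ π / N → cos (2 * g * c) = vv ρ (X + t) →
        0.7 * |sin X| ≤ sin (2 * g * c) := by
      intro c hc t ht h5
      have h6 := vv_near hk hN hρ hs ht (by rw [← h5]; exact abs_cos_le_one _)
      rw [← h5] at h6
      have h7 := sin_sq_add_cos_sq (2 * g * c)
      refine abs_le_of_sq_le_sq' ?_ (hangle c hc) |>.2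
      nlinarith
    have l1 := hlow a ha (-g) (by rw [abs_neg, abs_of_pos hg0]) (by rw [h1]; rfl)
    have l2 := hlow b hb g (by rw [abs_of_pos hg0]) h2
    nlinarith

end Pool.Agent.Lib.MP_0d8f69_co
end

section

set_option autoImplicit false

open Real

namespace Pool.Agent.Lib.MP_0d8f69_co

/-- the roots of unity whose distance to `p` is a distance of `mu N` -/
noncomputable def ZZ (N : ℕ) (p : ℂ) : Finset ℂ :=
  open scoped Classical in (mu N).filter (fun q => ∃ x ∈ mu N, ∃ y ∈ mu N, dist x y = dist p q)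

theorem ze_add_N {N : ℕ} (hN : 0 < N) (j : ℤ) : ze N (j + N) = ze N j := by
  have hNpos : (0 : ℝ) < N := by exact_mod_cast hN
  unfold ze
  rw [Complex.exp_eq_exp_iff_exists_int]
  refine ⟨1, ?_⟩
  have : (2 * π * ((j + (N : ℤ) : ℤ) : ℝ) / N : ℝ) = 2 * π * j / N + 2 * π := by
    push_cast; field_simp
  rw [this]
  push_cast
  ring

theorem exists_index {N : ℕ} {q : ℂ} (hq : q ∈ mu N) : ∃ j : ℕ, j < N ∧ q = ze N j := by
  unfold mu at hq
  obtain ⟨k, _, rfl⟩ := Finset.mem_image.1 hq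
  refine ⟨k, k.2, ?_⟩
  unfold ze
  congr 1
  push_cast
  ring

theorem norm_ze (N : ℕ) (j : ℤ) : ‖ze N j‖ = 1 := by
  unfold ze
  rw [Complex.norm_exp_ofReal_mul_I]

theorem dist_mu {N : ℕ} (hN : 0 < N) {x y : ℂ} (hx : x ∈ mu N) (hy : y ∈ mu N) :
    ∃ a : ℕ, 2 * a ≤ N ∧ dist x y ^ 2 = 2 - 2 * cos (2 * π * a / N) := by
  have hNpos : (0 : ℝ) < N := by exact_mod_cast hN
  obtain ⟨j, hj, hj2⟩ := exists_index (div_mem_mu hN hx hy)
  have h1 : dist x y ^ 2 = 2 - 2 * cos (2 * π * j / N) := by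
    have hy1 := norm_mu hN hy
    have hy0 : y ≠ 0 := by
      rintro rfl
      rw [norm_zero] at hy1
      exact zero_ne_one hy1
    have e1 : x - y = (x / y - 1) * y := by
      field_simp
    rw [dist_eq_norm, e1, norm_mul, hy1, mul_one, hj2, Complex.sq_norm, Complex.normSq_apply]
    unfold ze
    simp only [Complex.sub_re, Complex.sub_im, Complex.one_re, Complex.one_im]
    rw [Complex.exp_ofReal_mul_I_re, Complex.exp_ofReal_mul_I_im]
    push_cast
    nlinarith [sin_sq_add_cos_sq (2 * π * (j : ℝ) / N)]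
  by_cases h : 2 * j ≤ N
  · exact ⟨j, h, h1⟩
  · refine ⟨N - j, by omega, ?_⟩
    rw [h1]
    have e1 : ((N - j : ℕ) : ℝ) = N - j := by
      rw [Nat.cast_sub hj.le]
    have e2 : 2 * π * ((N - j : ℕ) : ℝ) / N = 2 * π - 2 * π * j / N := by
      rw [e1]; field_simp
    rw [e2, cos_two_pi_sub]

theorem dist_ze (N : ℕ) (p : ℂ) (j : ℤ) :
    dist p (ze N j) ^ 2 = 2 - 2 * vv ‖p‖ (2 * π * j / N - p.arg) := by
  rw [dist_eq_norm, Complex.sq_norm, Complex.normSq_apply]
  have e1 : p.re = ‖p‖ * cos p.arg := (Complex.norm_mul_cos_arg p).symm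
  have e2 : p.im = ‖p‖ * sin p.arg := (Complex.norm_mul_sin_arg p).symm
  unfold ze vv
  simp only [Complex.sub_re, Complex.sub_im]
  rw [Complex.exp_ofReal_mul_I_re, Complex.exp_ofReal_mul_I_im, cos_sub]
  have h1 := sin_sq_add_cos_sq p.arg
  have h2 := sin_sq_add_cos_sq (2 * π * (j : ℝ) / N)
  set ρ := ‖p‖
  rw [e1, e2]
  linear_combination ρ ^ 2 * h1 + h2

theorem ite_add_ite_le (a b : Prop) [Decidable a] [Decidable b] :
    (if a then 1 else 0) + (if b then 1 else 0) ≤ 1 + (if a ∧ b then 1 else 0) := by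
  by_cases ha : a <;> by_cases hb : b <;> simp [ha, hb]

theorem coincidences {N : ℕ} {k : ℕ} (hk : 1 ≤ k) (hN : 1000 * k ≤ N) {p : ℂ} (hp0 : p ≠ 0) (hp1 : ‖p‖ ≠ 1)
    (hp : |‖p‖ - 1| ≤ 70000 * (k : ℝ) ^ 2 / N ^ 2) : 2 * (ZZ N p).card ≤ N + 1355 * k := by
  classical
  have hN0 : 0 < N := by omega
  have hNpos : (0 : ℝ) < N := by exact_mod_cast hN0
  have hρ0 : 0 < ‖p‖ := norm_pos_iff.2 hp0
  set J := (Finset.range N).filter (fun j : ℕ => ze N j ∈ ZZ N p) with hJ
  have hcard : (ZZ N p).card = J.card := by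
    symm
    refine Finset.card_bij (fun j _ => ze N (j : ℕ)) ?_ ?_ ?_
    · intro j hj
      exact (Finset.mem_filter.1 hj).2
    · intro i hi j hj h
      have h1 := Finset.mem_range.1 (Finset.mem_filter.1 hi).1
      have h2 := Finset.mem_range.1 (Finset.mem_filter.1 hj).1
      have h3 := ze_inj hN0 h (by
        have hi' : (i : ℝ) < N := by exact_mod_cast h1
        have hj' : (j : ℝ) < N := by exact_mod_cast h2
        have hi0 : (0 : ℝ) ≤ i := Nat.cast_nonneg _
        have hj0 : (0 : ℝ) ≤ j := Nat.cast_nonneg _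
        push_cast
        rw [abs_lt]
        constructor <;> linarith)
      exact_mod_cast h3
    · intro q hq
      have hq1 : q ∈ mu N := (Finset.mem_filter.1 hq).1
      obtain ⟨j, hj, rfl⟩ := exists_index hq1
      exact ⟨j, Finset.mem_filter.2 ⟨Finset.mem_range.2 hj, hq⟩, rfl⟩
  set Dd := (Finset.range N).filter (fun j : ℕ => ze N j ∈ ZZ N p ∧ ze N (j + 1 : ℕ) ∈ ZZ N p) with hDd
  -- counting edges
  have hedge : 2 * J.card ≤ N + Dd.card := by
    set f : ℕ → ℕ := fun j => if ze N j ∈ ZZ N p then 1 else 0 with hf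
    have hfN : f N = f 0 := by
      have h1 : ze N ((N : ℕ) : ℤ) = ze N ((0 : ℕ) : ℤ) := by
        have := ze_add_N hN0 0
        rw [zero_add] at this
        rw [this]; rfl
      rw [hf]
      simp only
      rw [h1]
    have h1 : ∑ j ∈ Finset.range N, f j = J.card := by
      rw [hJ, Finset.card_filter]
    have h2 : ∑ j ∈ Finset.range N, f (j + 1) = J.card := by
      have h3 := Finset.sum_range_succ f N
      have h4 := Finset.sum_range_succ' f N
      omega
    have h3 : ∀ j ∈ Finset.range N, f j + f (j + 1) ≤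
        1 + (if ze N j ∈ ZZ N p ∧ ze N (j + 1 : ℕ) ∈ ZZ N p then 1 else 0) := by
      intro j _
      rw [hf]
      simp only
      exact ite_add_ite_le _ _
    have h4 := Finset.sum_le_sum h3
    rw [Finset.sum_add_distrib, Finset.sum_add_distrib, h1, h2, Finset.sum_const, Finset.card_range,
      smul_eq_mul, mul_one, ← Finset.card_filter] at h4
    rw [two_mul]
    exact h4
  -- double edges
  set c : ℝ := π / N - p.arg with hc
  have hsub : Dd ⊆ (Finset.range N).filter (fun j : ℕ => cos (2 * π * j / N + c) = kap N ‖p‖) ∪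
      (Finset.range N).filter (fun j : ℕ => |sin (2 * π * j / N + c)| < 900 * (k : ℝ) / N) := by
    intro j hj
    obtain ⟨hj1, hj2, hj3⟩ := Finset.mem_filter.1 hj
    obtain ⟨_, x, hx, y, hy, hxy⟩ := Finset.mem_filter.1 hj2
    obtain ⟨_, x', hx', y', hy', hxy'⟩ := Finset.mem_filter.1 hj3
    obtain ⟨a, ha, ha2⟩ := dist_mu hN0 hx hy
    obtain ⟨b, hb, hb2⟩ := dist_mu hN0 hx' hy'
    rw [hxy, dist_ze] at ha2
    rw [hxy', dist_ze] at hb2
    have e1 : cos (2 * π * a / N) = vv ‖p‖ ((2 * π * j / N + c) - π / N) := by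
      have : (2 * π * j / N + c) - π / N = 2 * π * ((j : ℤ) : ℝ) / N - p.arg := by rw [hc]; push_cast; ring
      rw [this]; linarith
    have e2 : cos (2 * π * b / N) = vv ‖p‖ ((2 * π * j / N + c) + π / N) := by
      have : (2 * π * j / N + c) + π / N = 2 * π * (((j + 1 : ℕ) : ℤ) : ℝ) / N - p.arg := by
        rw [hc]; push_cast; ring
      rw [this]; linarith
    rw [Finset.mem_union, Finset.mem_filter, Finset.mem_filter]
    rcases edge hk hN hρ0 hp1 hp ha hb e1 e2 with h | h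
    · exact Or.inl ⟨hj1, h⟩
    · exact Or.inr ⟨hj1, h⟩
  have h1 := (Finset.card_le_card hsub).trans (Finset.card_union_le _ _)
  have h2 := count_cos hN0 c (kap N ‖p‖)
  have h3 := count_upper hN0 c (l := 900 * (k : ℝ) / N) (by positivity)
  have h4 : 3 * ((N : ℝ) * (900 * (k : ℝ) / N) / 2 + 1) = 1350 * k + 3 := by
    field_simp; ring
  rw [h4] at h3
  have h5 : ((Finset.range N).filter (fun j : ℕ => |sin (2 * π * j / N + c)| < 900 * (k : ℝ) / N)).card ≤
      1350 * k + 3 := by exact_mod_cast h3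
  rw [hcard]
  omega

end Pool.Agent.Lib.MP_0d8f69_co
end

section

set_option autoImplicit false

open Real

namespace Pool.Agent.Lib.MP_0d8f69_co

/-- a circle which is not concentric meets the unit circle in at most two points -/
theorem circle_two {A : Finset ℂ} (hA : Uc A) {x : ℂ} (hx : x ≠ 0) (D : ℝ) :
    (A.filter (fun y => dist x y = D)).card ≤ 2 := by
  set c : ℝ := (1 + ‖x‖ ^ 2 - D ^ 2) / 2 with hc
  set s : ℝ := √(‖x‖ ^ 2 - c ^ 2) with hs
  have hmap : (A.filter (fun y => dist x y = D)).card ≤ ({s, -s} : Finset ℝ).card := by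
    have hre : ∀ y ∈ A.filter (fun y => dist x y = D), (y * (starRingEnd ℂ) x).re = c := by
      intro y hy
      obtain ⟨h1, h2⟩ := Finset.mem_filter.1 hy
      have e1 := hA y h1
      have e2 : D ^ 2 = ‖x - y‖ ^ 2 := by rw [← h2, dist_eq_norm]
      rw [hc, e2, Complex.sq_norm, Complex.sq_norm, Complex.normSq_apply, Complex.normSq_apply]
      have e3 : y.re * y.re + y.im * y.im = 1 := by
        have := Complex.sq_norm y
        rw [e1, Complex.normSq_apply] at this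
        linarith
      simp only [Complex.mul_re, Complex.conj_re, Complex.conj_im, Complex.sub_re, Complex.sub_im]
      linear_combination (1 / 2) * e3
    refine Finset.card_le_card_of_injOn (fun y => (y * (starRingEnd ℂ) x).im) ?_ ?_
    · intro y hy
      have hy' := Finset.mem_coe.1 hy
      have h1 := hre y hy'
      have e1 := hA y (Finset.mem_filter.1 hy').1
      have e2 : (y * (starRingEnd ℂ) x).re ^ 2 + (y * (starRingEnd ℂ) x).im ^ 2 = ‖x‖ ^ 2 := by
        have := Complex.sq_norm (y * (starRingEnd ℂ) x)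
        rw [norm_mul, e1, one_mul, RCLike.norm_conj, Complex.normSq_apply] at this
        rw [this]; ring
      rw [h1] at e2
      rw [Finset.mem_coe, Finset.mem_insert, Finset.mem_singleton]
      have e3 : (y * (starRingEnd ℂ) x).im ^ 2 = ‖x‖ ^ 2 - c ^ 2 := by linarith
      have e4 : s ^ 2 = ‖x‖ ^ 2 - c ^ 2 := by
        rw [hs, sq_sqrt]
        rw [← e3]; positivity
      exact sq_eq_sq_iff_eq_or_eq_neg.1 (e3.trans e4.symm)
    · intro y hy z hz h
      simp only at h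
      have h1 := hre y (Finset.mem_coe.1 hy)
      have h2 := hre z (Finset.mem_coe.1 hz)
      have h3 : y * (starRingEnd ℂ) x = z * (starRingEnd ℂ) x := Complex.ext (h1.trans h2.symm) h
      exact mul_right_cancel₀ (by simpa using hx) h3
  exact hmap.trans Finset.card_le_two

/-- distances which are not distances of the regular polygon are rare -/
theorem Rn_rare {A : Finset ℂ} (hA : Uc A) {N k : ℕ} (hfar : (A.filter (fun z => z ∉ mu N)).card ≤ 64 * k) {D : ℝ}
    (hD : ∀ x ∈ mu N, ∀ y ∈ mu N, dist x y ≠ D) : Rn A D ≤ 256 * k := by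
  classical
  set A2 := A.filter (fun z => z ∉ mu N) with hA2
  have hsub : A.offDiag.filter (fun p : ℂ × ℂ => dist p.1 p.2 = D) ⊆
      (A2.biUnion fun x => (A.filter (fun y => dist x y = D)).image fun y => (x, y)) ∪
      (A2.biUnion fun y => (A.filter (fun x => dist y x = D)).image fun x => (x, y)) := by
    rintro ⟨x, y⟩ hp
    obtain ⟨h1, h2⟩ := Finset.mem_filter.1 hp
    obtain ⟨hx, hy, hne⟩ := Finset.mem_offDiag.1 h1
    simp only at hx hy hne h2
    rw [Finset.mem_union, Finset.mem_biUnion, Finset.mem_biUnion]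
    by_cases hxm : x ∈ mu N
    · have hym : y ∉ mu N := fun h => hD x hxm y h h2
      right
      refine ⟨y, Finset.mem_filter.2 ⟨hy, hym⟩, Finset.mem_image.2 ⟨x, Finset.mem_filter.2 ⟨hx, ?_⟩, rfl⟩⟩
      rw [dist_comm]; exact h2
    · left
      exact ⟨x, Finset.mem_filter.2 ⟨hx, hxm⟩, Finset.mem_image.2 ⟨y, Finset.mem_filter.2 ⟨hy, h2⟩, rfl⟩⟩
  have hb1 : (A2.biUnion fun x => (A.filter (fun y => dist x y = D)).image fun y => (x, y)).card ≤ A2.card * 2 := by
    refine Finset.card_biUnion_le_card_mul _ _ _ fun x hx => ?_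
    exact Finset.card_image_le.trans (circle_two hA (ne_zero_of_norm (hA x (Finset.mem_filter.1 hx).1)) D)
  have hb2 : (A2.biUnion fun y => (A.filter (fun x => dist y x = D)).image fun x => (x, y)).card ≤ A2.card * 2 := by
    refine Finset.card_biUnion_le_card_mul _ _ _ fun x hx => ?_
    exact Finset.card_image_le.trans (circle_two hA (ne_zero_of_norm (hA x (Finset.mem_filter.1 hx).1)) D)
  have h1 := (Finset.card_le_card hsub).trans (Finset.card_union_le _ _)
  unfold Rn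
  omega

/-- the cross sum of one point -/
theorem cross_one {A : Finset ℂ} (hA : Uc A) {N k : ℕ} (hfar : (A.filter (fun z => z ∉ mu N)).card ≤ 64 * k)
    (p : ℂ) : ∑ q ∈ A, Rn A (dist p q) ≤ 384 * k * A.card + 2 * A.card * (ZZ N p).card := by
  classical
  set A2 := A.filter (fun z => z ∉ mu N) with hA2
  have hle : ∀ q ∈ A, Rn A (dist p q) ≤ (if q ∉ mu N then 2 * A.card else 0) +
      ((if q ∈ ZZ N p then 2 * A.card else 0) + 256 * k) := by
    intro q hq
    by_cases h1 : q ∈ mu N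
    · by_cases h2 : q ∈ ZZ N p
      · have := Rn_le hA (dist p q)
        rw [if_neg (not_not.2 h1), if_pos h2]
        omega
      · rw [if_neg (not_not.2 h1), if_neg h2]
        have h3 : ∀ x ∈ mu N, ∀ y ∈ mu N, dist x y ≠ dist p q := by
          intro x hx y hy h4
          apply h2
          unfold ZZ
          exact Finset.mem_filter.2 ⟨h1, x, hx, y, hy, h4⟩
        have := Rn_rare hA hfar h3
        omega
    · have := Rn_le hA (dist p q)
      rw [if_pos h1]
      omega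
  refine (Finset.sum_le_sum hle).trans ?_
  rw [Finset.sum_add_distrib, Finset.sum_add_distrib, ← Finset.sum_filter, ← Finset.sum_filter, Finset.sum_const,
    Finset.sum_const, Finset.sum_const, smul_eq_mul, smul_eq_mul, smul_eq_mul]
  have h1 : (A.filter (fun q => q ∈ ZZ N p)).card ≤ (ZZ N p).card :=
    Finset.card_le_card fun q hq => (Finset.mem_filter.1 hq).2
  have h2 : A2.card * (2 * A.card) ≤ 64 * k * (2 * A.card) := Nat.mul_le_mul_right _ hfar
  have h3 : (A.filter (fun q => q ∈ ZZ N p)).card * (2 * A.card) ≤ (ZZ N p).card * (2 * A.card) :=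
    Nat.mul_le_mul_right _ h1
  calc A2.card * (2 * A.card) + ((A.filter (fun q => q ∈ ZZ N p)).card * (2 * A.card) + A.card * (256 * k))
      ≤ 64 * k * (2 * A.card) + ((ZZ N p).card * (2 * A.card) + A.card * (256 * k)) := by omega
    _ = 384 * k * A.card + 2 * A.card * (ZZ N p).card := by ring

end Pool.Agent.Lib.MP_0d8f69_co
end

section

set_option autoImplicit false

open Real

namespace Pool.Agent.Lib.MP_0d8f69_co

theorem sn_eq (B A : Finset ℂ) (D : ℝ) : sn B A D = ∑ p ∈ B, (A.filter (fun q => dist p q = D)).card := by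
  unfold sn
  rw [Finset.card_filter, Finset.sum_product]
  refine Finset.sum_congr rfl fun p _ => ?_
  rw [Finset.card_filter]

theorem sn_le {A B : Finset ℂ} (hA : Uc A) (h0 : (0 : ℂ) ∉ B) (D : ℝ) : sn B A D ≤ 2 * B.card := by
  rw [sn_eq]
  refine (Finset.sum_le_sum fun p hp => circle_two hA (fun h => h0 (h ▸ hp)) D).trans ?_
  rw [Finset.sum_const, smul_eq_mul, mul_comm]

theorem sn_le' {A B : Finset ℂ} (hA : Uc A) (D : ℝ) :
    sn B A D ≤ 2 * B.card + (if D = 1 then A.card else 0) := by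
  rw [sn_eq]
  have h1 : ∀ p ∈ B, (A.filter (fun q => dist p q = D)).card ≤ 2 + (if p = 0 then (if D = 1 then A.card else 0) else 0) := by
    intro p _
    by_cases hp : p = 0
    · rw [if_pos hp]
      by_cases hD : D = 1
      · rw [if_pos hD]
        have := Finset.card_filter_le A (fun q => dist p q = D)
        omega
      · rw [if_neg hD, Finset.filter_eq_empty_iff.2, Finset.card_empty]
        · exact Nat.zero_le _
        · intro q hq h2
          rw [hp, dist_zero_left, hA q hq] at h2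
          exact hD h2.symm
    · rw [if_neg hp]
      exact circle_two hA hp D
  refine (Finset.sum_le_sum h1).trans ?_
  rw [Finset.sum_add_distrib, Finset.sum_const, smul_eq_mul, ← Finset.sum_filter, Finset.sum_const, smul_eq_mul]
  have h2 : (B.filter (fun p => p = 0)).card ≤ 1 := by
    rw [Finset.card_le_one]
    intro a ha b hb
    rw [(Finset.mem_filter.1 ha).2, (Finset.mem_filter.1 hb).2]
  have h3 : (B.filter (fun p => p = 0)).card * (if D = 1 then A.card else 0) ≤ 1 * (if D = 1 then A.card else 0) :=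
    Nat.mul_le_mul_right _ h2
  omega

theorem sum_sn_sq {A B : Finset ℂ} (hA : Uc A) (h0 : (0 : ℂ) ∉ B) (Δ : Finset ℝ)
    (hΔ : ∀ p ∈ B ×ˢ A, dist p.1 p.2 ∈ Δ) : ∑ D ∈ Δ, sn B A D ^ 2 ≤ 2 * B.card ^ 2 * A.card := by
  calc ∑ D ∈ Δ, sn B A D ^ 2 ≤ ∑ D ∈ Δ, sn B A D * (2 * B.card) := by
        refine Finset.sum_le_sum fun D _ => ?_
        rw [sq]
        exact Nat.mul_le_mul_left _ (sn_le hA h0 D)
    _ = B.card * A.card * (2 * B.card) := by rw [← Finset.sum_mul, sn_sum B A Δ hΔ]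
    _ = _ := by ring

theorem sum_sn_sq' {A B : Finset ℂ} (hA : Uc A) (Δ : Finset ℝ)
    (hΔ : ∀ p ∈ B ×ˢ A, dist p.1 p.2 ∈ Δ) :
    ∑ D ∈ Δ, sn B A D ^ 2 ≤ 2 * B.card ^ 2 * A.card + 2 * B.card * A.card + A.card ^ 2 := by
  have h1 : ∑ D ∈ Δ, sn B A D ^ 2 ≤ ∑ D ∈ Δ, (sn B A D * (2 * B.card) +
      (if D = 1 then sn B A D * A.card else 0)) := by
    refine Finset.sum_le_sum fun D _ => ?_
    rw [sq]
    refine (Nat.mul_le_mul_left _ (sn_le' hA D)).trans (le_of_eq ?_)
    by_cases hD : D = 1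
    · rw [if_pos hD, if_pos hD]; ring
    · rw [if_neg hD, if_neg hD]; ring
  refine h1.trans ?_
  rw [Finset.sum_add_distrib, ← Finset.sum_mul, sn_sum B A Δ hΔ]
  have h2 : ∑ D ∈ Δ, (if D = 1 then sn B A D * A.card else 0) ≤ sn B A 1 * A.card := by
    rw [Finset.sum_ite_eq']
    by_cases h : (1 : ℝ) ∈ Δ
    · rw [if_pos h]
    · rw [if_neg h]
      exact Nat.zero_le _
  have h3 := sn_le' (B := B) hA 1
  rw [if_pos rfl] at h3
  have h4 : sn B A 1 * A.card ≤ (2 * B.card + A.card) * A.card := Nat.mul_le_mul_right _ h3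
  nlinarith

end Pool.Agent.Lib.MP_0d8f69_co
end

section

set_option autoImplicit false

open Real

namespace Pool.Agent.Lib.MP_0d8f69_co

/-- expansion of `Qn (A ∪ B)` -/
theorem Qn_union {A B : Finset ℂ} (h : Disjoint A B) (Δ : Finset ℝ)
    (hΔ : ∀ x ∈ A ∪ B, ∀ y ∈ A ∪ B, dist x y ∈ Δ) :
    Qn (A ∪ B) ≤ Qn A + 4 * ∑ D ∈ Δ, Rn A D * sn B A D + 2 * ∑ D ∈ Δ, Rn A D * Rn B D +
      8 * ∑ D ∈ Δ, sn B A D ^ 2 + 2 * Qn B := by
  have m1 : ∀ p ∈ (A ∪ B).offDiag, dist p.1 p.2 ∈ Δ := fun p hp =>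
    hΔ _ (Finset.mem_offDiag.1 hp).1 _ (Finset.mem_offDiag.1 hp).2.1
  have m2 : ∀ p ∈ A.offDiag, dist p.1 p.2 ∈ Δ := fun p hp =>
    hΔ _ (Finset.mem_union_left _ (Finset.mem_offDiag.1 hp).1) _ (Finset.mem_union_left _ (Finset.mem_offDiag.1 hp).2.1)
  have m3 : ∀ p ∈ B.offDiag, dist p.1 p.2 ∈ Δ := fun p hp =>
    hΔ _ (Finset.mem_union_right _ (Finset.mem_offDiag.1 hp).1) _ (Finset.mem_union_right _ (Finset.mem_offDiag.1 hp).2.1)
  rw [Qn_eq _ Δ m1, Qn_eq A Δ m2, Qn_eq B Δ m3, Finset.mul_sum, Finset.mul_sum, Finset.mul_sum, Finset.mul_sum,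
    ← Finset.sum_add_distrib, ← Finset.sum_add_distrib, ← Finset.sum_add_distrib, ← Finset.sum_add_distrib]
  refine Finset.sum_le_sum fun D _ => ?_
  rw [Rn_union h]
  have key : ∀ a s b : ℕ, (a + 2 * s + b) ^ 2 ≤ a ^ 2 + 4 * (a * s) + 2 * (a * b) + 8 * s ^ 2 + 2 * b ^ 2 := by
    intro a s b
    zify
    nlinarith [sq_nonneg ((2 : ℤ) * s - b)]
  exact key _ _ _

theorem sum_Rn_Rn {A B : Finset ℂ} (hA : Uc A) (Δ : Finset ℝ) (hΔ : ∀ p ∈ B.offDiag, dist p.1 p.2 ∈ Δ) :
    ∑ D ∈ Δ, Rn A D * Rn B D ≤ 2 * A.card * B.card ^ 2 := by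
  calc ∑ D ∈ Δ, Rn A D * Rn B D ≤ ∑ D ∈ Δ, 2 * A.card * Rn B D :=
        Finset.sum_le_sum fun D _ => Nat.mul_le_mul_right _ (Rn_le hA D)
    _ = 2 * A.card * B.offDiag.card := by rw [← Finset.mul_sum, Rn_sum B Δ hΔ]
    _ ≤ 2 * A.card * B.card ^ 2 := by
        refine Nat.mul_le_mul_left _ ?_
        rw [Finset.offDiag_card, sq]
        exact Nat.sub_le _ _

theorem sum_Rn_sn {A B : Finset ℂ} (hA : Uc A) (Δ : Finset ℝ) (hΔ : ∀ p ∈ B ×ˢ A, dist p.1 p.2 ∈ Δ) :
    ∑ D ∈ Δ, Rn A D * sn B A D ≤ 2 * A.card * (B.card * A.card) := by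
  calc ∑ D ∈ Δ, Rn A D * sn B A D ≤ ∑ D ∈ Δ, 2 * A.card * sn B A D :=
        Finset.sum_le_sum fun D _ => Nat.mul_le_mul_right _ (Rn_le hA D)
    _ = 2 * A.card * (B.card * A.card) := by rw [← Finset.mul_sum, sn_sum B A Δ hΔ]

theorem sum_Rn_sn_eq {A B : Finset ℂ} (Δ : Finset ℝ) (hΔ : ∀ p ∈ B ×ˢ A, dist p.1 p.2 ∈ Δ) :
    ∑ D ∈ Δ, Rn A D * sn B A D = ∑ p ∈ B, ∑ q ∈ A, Rn A (dist p q) := by
  have h := sum_prod_dist B A Δ hΔ (Rn A)
  rw [Finset.sum_product] at h
  rw [h]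
  exact Finset.sum_congr rfl fun D _ => mul_comm _ _

/-- `A` is not almost regular -/
theorem far_case {A B : Finset ℂ} (hA : Uc A) (hAB : Disjoint A B) (hS : Cvx (A ∪ B)) (hk : 1 ≤ B.card)
    (hkm : 8000 * B.card ≤ A.card) (hE : En A + 8 * B.card * A.card ^ 2 < A.card ^ 3) :
    Qn (A ∪ B) + 3 * (A ∪ B).card ^ 2 < 2 * (A ∪ B).card ^ 3 := by
  set Δ : Finset ℝ := ((A ∪ B) ×ˢ (A ∪ B)).image (fun p => dist p.1 p.2) with hΔd
  have hΔ : ∀ x ∈ A ∪ B, ∀ y ∈ A ∪ B, dist x y ∈ Δ := fun x hx y hy =>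
    Finset.mem_image.2 ⟨(x, y), Finset.mem_product.2 ⟨hx, hy⟩, rfl⟩
  have m3 : ∀ p ∈ B.offDiag, dist p.1 p.2 ∈ Δ := fun p hp =>
    hΔ _ (Finset.mem_union_right _ (Finset.mem_offDiag.1 hp).1) _ (Finset.mem_union_right _ (Finset.mem_offDiag.1 hp).2.1)
  have m4 : ∀ p ∈ B ×ˢ A, dist p.1 p.2 ∈ Δ := fun p hp =>
    hΔ _ (Finset.mem_union_right _ (Finset.mem_product.1 hp).1) _ (Finset.mem_union_left _ (Finset.mem_product.1 hp).2)
  have h1 := Qn_union hAB Δ hΔ
  have h2 := Qn_le_En hA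
  have h3 := sum_Rn_sn hA Δ m4
  have h4 := sum_Rn_Rn hA Δ m3
  have h5 := sum_sn_sq' hA Δ m4
  have h6 := Qn_cvx (cvx_subset hS (Finset.subset_union_right (s₁ := A)))
  rw [Finset.card_union_of_disjoint hAB]
  set m := A.card
  set k := B.card
  set x1 := ∑ D ∈ Δ, Rn A D * sn B A D
  set x2 := ∑ D ∈ Δ, Rn A D * Rn B D
  set x3 := ∑ D ∈ Δ, sn B A D ^ 2
  have hb1 : k ^ 2 * m * 8000 ≤ k * m ^ 2 := by
    have := Nat.mul_le_mul_left (k * m) hkm
    nlinarith
  have hb2 : k ^ 3 * 8000 ≤ k ^ 2 * m := by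
    have := Nat.mul_le_mul_left (k ^ 2) hkm
    nlinarith
  have hb3 : k * m ≤ k ^ 2 * m := by
    have := Nat.mul_le_mul_right (k * m) hk
    nlinarith
  have hb4 : m ^ 2 ≤ k * m ^ 2 := by
    have := Nat.mul_le_mul_right (m ^ 2) hk
    linarith
  have hb5 : k ^ 2 ≤ k ^ 2 * m := by
    have : 1 ≤ m := by omega
    exact Nat.le_mul_of_pos_right _ this
  have hb6 : 0 < k * m ^ 2 := by
    have : 0 < m := by omega
    positivity
  nlinarith [h1, h2, h3, h4, h5, h6, hb1, hb2, hb3, hb4, hb5, hb6, hE, Nat.zero_le (m * k ^ 2), Nat.zero_le (k ^ 3)]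

/-- `A` is almost regular -/
theorem near_case {A B : Finset ℂ} (hA : Uc A) (hAB : Disjoint A B) (hB : ∀ b ∈ B, ‖b‖ ≠ 1) (hS : Cvx (A ∪ B))
    (hk : 1 ≤ B.card) (hkm : 8000 * B.card ≤ A.card) {N : ℕ} (hN1 : A.card ≤ N + 64 * B.card)
    (hN2 : N ≤ A.card + 16 * B.card) (hN3 : A.card ≤ (A.filter (fun z => z ∈ mu N)).card + 64 * B.card) :
    Qn (A ∪ B) + 3 * (A ∪ B).card ^ 2 < 2 * (A ∪ B).card ^ 3 := by
  have hN0 : 0 < N := by omega
  have hNk : 1000 * B.card ≤ N := by omega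
  have hNpos : (0 : ℝ) < N := by exact_mod_cast hN0
  have hfar : (A.filter (fun z => z ∉ mu N)).card ≤ 64 * B.card := by
    have := Finset.card_filter_add_card_filter_not (s := A) (fun z => z ∈ mu N)
    omega
  have hmiss : (mu N \ (A ∪ B)).card ≤ 80 * B.card := by
    have h1 : mu N \ (A ∪ B) ⊆ mu N \ (A.filter (fun z => z ∈ mu N)) :=
      Finset.sdiff_subset_sdiff (le_refl _) ((Finset.filter_subset _ _).trans Finset.subset_union_left)
    have h2 : A.filter (fun z => z ∈ mu N) ⊆ mu N := fun z hz => (Finset.mem_filter.1 hz).2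
    have h3 := Finset.card_sdiff_of_subset h2
    have h4 := Finset.card_le_card h1
    rw [card_mu hN0] at h3
    omega
  set Δ : Finset ℝ := ((A ∪ B) ×ˢ (A ∪ B)).image (fun p => dist p.1 p.2) with hΔd
  have hΔ : ∀ x ∈ A ∪ B, ∀ y ∈ A ∪ B, dist x y ∈ Δ := fun x hx y hy =>
    Finset.mem_image.2 ⟨(x, y), Finset.mem_product.2 ⟨hx, hy⟩, rfl⟩
  have m3 : ∀ p ∈ B.offDiag, dist p.1 p.2 ∈ Δ := fun p hp =>
    hΔ _ (Finset.mem_union_right _ (Finset.mem_offDiag.1 hp).1) _ (Finset.mem_union_right _ (Finset.mem_offDiag.1 hp).2.1)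
  have m4 : ∀ p ∈ B ×ˢ A, dist p.1 p.2 ∈ Δ := fun p hp =>
    hΔ _ (Finset.mem_union_right _ (Finset.mem_product.1 hp).1) _ (Finset.mem_union_left _ (Finset.mem_product.1 hp).2)
  -- the radii
  have hη : 70000 * (B.card : ℝ) ^ 2 / N ^ 2 ≤ 0.07 := by
    rw [div_le_iff₀ (by positivity)]
    have : 1000 * (B.card : ℝ) ≤ N := by exact_mod_cast hNk
    nlinarith [Nat.cast_nonneg (α := ℝ) B.card]
  have hrad : ∀ p ∈ B, |‖p‖ - 1| ≤ 70000 * (B.card : ℝ) ^ 2 / N ^ 2 := by
    intro p hp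
    have h1 := radial_in hS hk hNk hmiss (Finset.mem_union_right _ hp) (hB p hp)
    have h2 := radial_out hS hk hNk hmiss (Finset.mem_union_right _ hp) (hB p hp)
    rw [abs_le]
    constructor <;> linarith
  have hne : ∀ p ∈ B, p ≠ 0 := by
    intro p hp h0
    have := hrad p hp
    rw [h0, norm_zero, zero_sub, abs_neg, abs_one] at this
    linarith
  have h0B : (0 : ℂ) ∉ B := fun h => hne 0 h rfl
  -- the cross sum
  have hcross : ∑ D ∈ Δ, Rn A D * sn B A D ≤ B.card * (A.card ^ 2 + 1755 * B.card * A.card) := by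
    rw [sum_Rn_sn_eq Δ m4]
    have h1 : ∀ p ∈ B, ∑ q ∈ A, Rn A (dist p q) ≤ A.card ^ 2 + 1755 * B.card * A.card := by
      intro p hp
      have h2 := cross_one hA hfar p
      have h3 := coincidences hk hNk (hne p hp) (hB p hp) (hrad p hp)
      have h4 : 2 * A.card * (ZZ N p).card ≤ A.card * (A.card + 1371 * B.card) := by
        have h5 : 2 * (ZZ N p).card ≤ A.card + 1371 * B.card := by omega
        calc 2 * A.card * (ZZ N p).card = A.card * (2 * (ZZ N p).card) := by ring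
          _ ≤ _ := Nat.mul_le_mul_left _ h5
      calc _ ≤ 384 * B.card * A.card + A.card * (A.card + 1371 * B.card) := by omega
        _ = _ := by ring
    refine (Finset.sum_le_sum h1).trans ?_
    rw [Finset.sum_const, smul_eq_mul]
  have h1 := Qn_union hAB Δ hΔ
  have h2 := Qn_le_En hA
  have h2' := En_le hA
  have h4 := sum_Rn_Rn hA Δ m3
  have h5 := sum_sn_sq hA h0B Δ m4
  have h6 := Qn_cvx (cvx_subset hS (Finset.subset_union_right (s₁ := A)))
  rw [Finset.card_union_of_disjoint hAB]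
  clear hη hrad hNpos
  set m := A.card
  set k := B.card
  set x1 := ∑ D ∈ Δ, Rn A D * sn B A D
  set x2 := ∑ D ∈ Δ, Rn A D * Rn B D
  set x3 := ∑ D ∈ Δ, sn B A D ^ 2
  have hb1 : k ^ 2 * m * 8000 ≤ k * m ^ 2 := by
    have := Nat.mul_le_mul_left (k * m) hkm
    nlinarith
  have hb2 : k ^ 3 * 8000 ≤ k ^ 2 * m := by
    have := Nat.mul_le_mul_left (k ^ 2) hkm
    nlinarith
  have hb3 : k * m ≤ k ^ 2 * m := by
    have := Nat.mul_le_mul_right (k * m) hk
    nlinarith
  have hb4 : m ^ 2 ≤ k * m ^ 2 := by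
    have := Nat.mul_le_mul_right (m ^ 2) hk
    linarith
  have hb5 : k ^ 2 ≤ k ^ 2 * m := by
    have : 1 ≤ m := by omega
    exact Nat.le_mul_of_pos_right _ this
  have hb6 : 0 < k * m ^ 2 := by
    have : 0 < m := by omega
    positivity
  nlinarith [h1, h2, h2', hcross, h4, h5, h6, hb1, hb2, hb3, hb4, hb5, hb6, Nat.zero_le (m * k ^ 2), Nat.zero_le (k ^ 3)]

end Pool.Agent.Lib.MP_0d8f69_co
end

section

set_option autoImplicit false

open Real

namespace Pool.Agent.Lib.MP_0d8f69_co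

/-- the similarity `z ↦ u z + v` -/
def si (u v : ℂ) (z : ℂ) : ℂ := u * z + v

theorem si_inj {u : ℂ} (hu : u ≠ 0) (v : ℂ) : Function.Injective (si u v) := fun x y h =>
  mul_left_cancel₀ hu (add_right_cancel h)

theorem si_dist (u v x y : ℂ) : dist (si u v x) (si u v y) = ‖u‖ * dist x y := by
  unfold si
  rw [dist_add_right, dist_eq_norm, dist_eq_norm, ← mul_sub, norm_mul]

theorem si_inv {u : ℂ} (hu : u ≠ 0) (v z : ℂ) : si u⁻¹ (-(u⁻¹ * v)) (si u v z) = z := by
  unfold si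
  rw [mul_add, inv_mul_cancel_left₀ hu]
  ring

theorem si_inv' {u : ℂ} (hu : u ≠ 0) (v z : ℂ) : si u v (si u⁻¹ (-(u⁻¹ * v)) z) = z := by
  unfold si
  field_simp
  ring

theorem image_si_inv {u : ℂ} (hu : u ≠ 0) (v : ℂ) (S : Finset ℂ) :
    (S.image (si u⁻¹ (-(u⁻¹ * v)))).image (si u v) = S := by
  rw [Finset.image_image]
  have : si u v ∘ si u⁻¹ (-(u⁻¹ * v)) = id := funext fun z => si_inv' hu v z
  rw [this, Finset.image_id]

theorem Qn_si {u : ℂ} (hu : u ≠ 0) (v : ℂ) (S : Finset ℂ) : Qn (S.image (si u v)) = Qn S := by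
  have hn : ‖u‖ ≠ 0 := norm_ne_zero_iff.2 hu
  have hinj := si_inj hu v
  unfold Qn
  symm
  refine Finset.card_bij (fun pq _ => ((si u v pq.1.1, si u v pq.1.2), (si u v pq.2.1, si u v pq.2.2))) ?_ ?_ ?_
  · intro pq h
    simp only [Finset.mem_filter, Finset.mem_product, Finset.mem_offDiag] at h ⊢
    obtain ⟨⟨⟨h1, h2, h3⟩, ⟨h4, h5, h6⟩⟩, h7⟩ := h
    refine ⟨⟨⟨Finset.mem_image_of_mem _ h1, Finset.mem_image_of_mem _ h2, fun h => h3 (hinj h)⟩,
      ⟨Finset.mem_image_of_mem _ h4, Finset.mem_image_of_mem _ h5, fun h => h6 (hinj h)⟩⟩, ?_⟩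
    rw [si_dist, si_dist, h7]
  · intro p _ q _ h
    simp only [Prod.mk.injEq] at h
    exact Prod.ext (Prod.ext (hinj h.1.1) (hinj h.1.2)) (Prod.ext (hinj h.2.1) (hinj h.2.2))
  · rintro ⟨⟨a, b⟩, ⟨c, d⟩⟩ h
    simp only [Finset.mem_filter, Finset.mem_product, Finset.mem_offDiag, Finset.mem_image] at h
    obtain ⟨⟨⟨⟨a', ha, rfl⟩, ⟨b', hb, rfl⟩, h3⟩, ⟨⟨c', hc, rfl⟩, ⟨d', hd, rfl⟩, h6⟩⟩, h7⟩ := h
    refine ⟨((a', b'), (c', d')), ?_, rfl⟩
    simp only [Finset.mem_filter, Finset.mem_product, Finset.mem_offDiag]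
    rw [si_dist, si_dist] at h7
    exact ⟨⟨⟨ha, hb, fun h => h3 (by rw [h])⟩, ⟨hc, hd, fun h => h6 (by rw [h])⟩⟩, mul_left_cancel₀ hn h7⟩

theorem Cvx_si {u : ℂ} (hu : u ≠ 0) (v : ℂ) {S : Finset ℂ} (hS : Cvx S) : Cvx (S.image (si u v)) := by
  have hinj := si_inj hu v
  intro x hx hcon
  obtain ⟨y, hy, rfl⟩ := Finset.mem_image.1 hx
  refine hS y hy ?_
  -- the inverse similarity is affine
  set f : ℂ →ᵃ[ℝ] ℂ := ((LinearMap.mulLeft ℝ u⁻¹).toAffineMap + AffineMap.const ℝ ℂ (-(u⁻¹ * v))) with hf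
  have hfe : ∀ z, f z = si u⁻¹ (-(u⁻¹ * v)) z := fun z => rfl
  have h1 : f (si u v y) ∈ f '' (convexHull ℝ (↑((S.image (si u v)).erase (si u v y)) : Set ℂ)) := ⟨_, hcon, rfl⟩
  rw [AffineMap.image_convexHull] at h1
  rw [hfe, si_inv hu] at h1
  refine convexHull_mono ?_ h1
  rintro _ ⟨z, hz, rfl⟩
  obtain ⟨hz1, hz2⟩ := Finset.mem_erase.1 (Finset.mem_coe.1 hz)
  obtain ⟨w, hw, rfl⟩ := Finset.mem_image.1 hz2
  rw [hfe, si_inv hu]
  exact Finset.mem_coe.2 (Finset.mem_erase.2 ⟨fun h => hz1 (by rw [h]), hw⟩)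

theorem card_si {u : ℂ} (hu : u ≠ 0) (v : ℂ) (S : Finset ℂ) : (S.image (si u v)).card = S.card :=
  Finset.card_image_of_injective _ (si_inj hu v)

/-- the unit circle -/
theorem main_unit {S : Finset ℂ} (hS : Cvx S) (h3 : 3 ≤ S.card)
    (hB : 10000 * (S.filter (fun z => ‖z‖ ≠ 1)).card ≤ S.card) :
    (∃ a : ℂ, a ≠ 0 ∧ S = (mu S.card).image (fun z => a * z)) ∨ Qn S + 3 * S.card ^ 2 < 2 * S.card ^ 3 := by
  set A := S.filter (fun z => ‖z‖ = 1) with hA
  set B := S.filter (fun z => ‖z‖ ≠ 1) with hBd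
  have hAU : Uc A := fun a ha => (Finset.mem_filter.1 ha).2
  have hdis : Disjoint A B := Finset.disjoint_filter_filter_not S S (fun z => ‖z‖ = 1)
  have hunion : A ∪ B = S := Finset.filter_union_filter_not_eq (fun z => ‖z‖ = 1) S
  have hcard : A.card + B.card = S.card := by rw [← Finset.card_union_of_disjoint hdis, hunion]
  by_cases hB0 : B.card = 0
  · have hSA : S = A := by
      rw [Finset.card_eq_zero] at hB0
      rw [← hunion, hB0, Finset.union_empty]
    rcases k0 hAU (by omega) with ⟨a, ha, h⟩ | h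
    · left
      refine ⟨a, ne_zero_of_norm (hAU a ha), ?_⟩
      rw [hSA]
      exact h
    · right
      rw [hSA]; exact h
  · right
    have hk : 1 ≤ B.card := Nat.one_le_iff_ne_zero.2 hB0
    have hkm : 8000 * B.card ≤ A.card := by omega
    by_cases hE : En A + 8 * B.card * A.card ^ 2 < A.card ^ 3
    · have := far_case hAU hdis (by rw [hunion]; exact hS) hk hkm hE
      rwa [hunion] at this
    · obtain ⟨a, ha, N, hN0, hN1, hN2, hN3⟩ := stability hAU hk (by omega) (not_lt.1 hE)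
      have hna : ‖a‖ = 1 := hAU a ha
      have ha0 : a⁻¹ ≠ 0 := inv_ne_zero (ne_zero_of_norm hna)
      have hnorm : ∀ z, ‖si a⁻¹ 0 z‖ = ‖z‖ := fun z => by
        unfold si
        rw [add_zero, norm_mul, norm_inv, hna, inv_one, one_mul]
      have hAU' : Uc (A.image (si a⁻¹ 0)) := by
        intro x hx
        obtain ⟨y, hy, rfl⟩ := Finset.mem_image.1 hx
        rw [hnorm]; exact hAU y hy
      have hdis' : Disjoint (A.image (si a⁻¹ 0)) (B.image (si a⁻¹ 0)) :=
        (Finset.disjoint_image (si_inj ha0 0)).2 hdis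
      have hB' : ∀ b ∈ B.image (si a⁻¹ 0), ‖b‖ ≠ 1 := by
        intro x hx
        obtain ⟨y, hy, rfl⟩ := Finset.mem_image.1 hx
        rw [hnorm]
        exact (Finset.mem_filter.1 hy).2
      have hU : A.image (si a⁻¹ 0) ∪ B.image (si a⁻¹ 0) = S.image (si a⁻¹ 0) := by
        rw [← Finset.image_union, hunion]
      have hN3' : (A.filter (fun z => z / a ∈ mu N)).card ≤
          ((A.image (si a⁻¹ 0)).filter (fun z => z ∈ mu N)).card := by
        refine Finset.card_le_card_of_injOn (si a⁻¹ 0) ?_ (si_inj ha0 0).injOn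
        intro z hz
        obtain ⟨h1, h2⟩ := Finset.mem_filter.1 (Finset.mem_coe.1 hz)
        rw [Finset.mem_coe, Finset.mem_filter]
        refine ⟨Finset.mem_image_of_mem _ h1, ?_⟩
        unfold si
        rw [add_zero, inv_mul_eq_div]
        exact h2
      have := near_case hAU' hdis' hB' (by rw [hU]; exact Cvx_si ha0 0 hS) (by rw [card_si ha0]; exact hk)
        (by rw [card_si ha0, card_si ha0]; exact hkm) (N := N) (by rw [card_si ha0, card_si ha0]; exact hN1)
        (by rw [card_si ha0, card_si ha0]; exact hN2) (by rw [card_si ha0, card_si ha0]; omega)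
      rw [hU, Qn_si ha0, card_si ha0] at this
      exact this

theorem main {S : Finset ℂ} (hS : Cvx S) (h3 : 3 ≤ S.card) {c : ℂ} {r : ℝ}
    (hB : 10000 * (S.filter (fun z => dist z c ≠ r)).card ≤ S.card) :
    (∃ a b : ℂ, a ≠ 0 ∧ S = (mu S.card).image (fun z => a * z + b)) ∨ Qn S + 3 * S.card ^ 2 < 2 * S.card ^ 3 := by
  have hr : 0 < r := by
    by_contra hcon
    push Not at hcon
    have h1 : (S.filter (fun z => dist z c = r)).card ≤ 1 := by
      rw [Finset.card_le_one]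
      intro a ha b hb
      have ha' := (Finset.mem_filter.1 ha).2
      have hb' := (Finset.mem_filter.1 hb).2
      have ea : dist a c = 0 := le_antisymm (ha'.le.trans hcon) dist_nonneg
      have eb : dist b c = 0 := le_antisymm (hb'.le.trans hcon) dist_nonneg
      rw [dist_eq_zero.1 ea, dist_eq_zero.1 eb]
    have h2 := Finset.card_filter_add_card_filter_not (s := S) (fun z => dist z c = r)
    have h4 : (S.filter (fun z => ¬ dist z c = r)).card = (S.filter (fun z => dist z c ≠ r)).card := rfl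
    omega
  have hr0 : (r : ℂ) ≠ 0 := by exact_mod_cast hr.ne'
  have hri : ((r : ℂ))⁻¹ ≠ 0 := inv_ne_zero hr0
  set S' := S.image (si (r : ℂ)⁻¹ (-((r : ℂ)⁻¹ * c))) with hS'
  have hcard : S'.card = S.card := card_si hri _ S
  have hfil : (S'.filter (fun z => ‖z‖ ≠ 1)).card = (S.filter (fun z => dist z c ≠ r)).card := by
    have h1 : S'.filter (fun z => ‖z‖ ≠ 1) = (S.filter (fun z => dist z c ≠ r)).image (si (r : ℂ)⁻¹ (-((r : ℂ)⁻¹ * c))) := by
      rw [hS', Finset.filter_image]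
      congr 1
      refine Finset.filter_congr fun z _ => ?_
      have h2 : ‖si (r : ℂ)⁻¹ (-((r : ℂ)⁻¹ * c)) z‖ = dist z c / r := by
        unfold si
        have : (r : ℂ)⁻¹ * z + -((r : ℂ)⁻¹ * c) = (r : ℂ)⁻¹ * (z - c) := by ring
        rw [this, norm_mul, norm_inv, Complex.norm_real, Real.norm_eq_abs, abs_of_pos hr, dist_eq_norm]
        ring
      rw [h2, ne_eq, div_eq_one_iff_eq hr.ne']
    rw [h1, card_si hri]
  rcases main_unit (Cvx_si hri _ hS) (by rw [hcard]; exact h3) (by rw [hfil, hcard]; exact hB) with ⟨a, ha, h⟩ | h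
  · left
    refine ⟨r * a, c, mul_ne_zero hr0 ha, ?_⟩
    have h1 := image_si_inv hr0 c S
    rw [← hS', hcard] at h
    rw [← hS', h, Finset.image_image] at h1
    refine h1.symm.trans ?_
    refine Finset.image_congr fun z _ => ?_
    show (r : ℂ) * (a * z) + c = r * a * z + c
    ring
  · right
    rw [Qn_si hri, ← hS', hcard] at h
    exact h

end Pool.Agent.Lib.MP_0d8f69_co
end
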